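import Pool.Agent.H9.TM.LinM

/-!
# TM SumA: the sums of `E_2` and `E_3` with one small prime

`a = 111/500`, `b = 1527/5000`, `b' = 3053/10000`; `u = log p/L ∈ (a, b]`, `v = log q/L`.  `log(b/a) ≤ 0.31895` (`b/a = 1527/1110`), `b - a = 0.0834`.  `η` = a small number (for example `10^(-5)`), `N` large.
* `s1_le`: `log(x/p) ≥ L (1 - u) - log 8 ≥ L (1 - η - u)`; `1/(1-u) ≤ 1.285348 + 1.850481 (u - a)` on `[a, b]` (chord, `(1 - u)(chord) ≥ 1` is a quadratic inequality), take the coefficients slightly larger for `η`; `lin_m`: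
  `≤ (1.285348 - 1.850481 a) log(b/a) + 1.850481 (b - a) + small ≤ 0.43327`.
* `s2_le`: `q ≤ N^((1-u)/2 + η)` (`p q² ≤ 16 N`), `1 - u - v ≥ (1-u)/2 - η > 0.34`, `log(x/(pq)) ≥ L (1 - η - u - v)`.  For `b' ≤ v`, `v ≤ 1 - u - v + 2η`: `v (1 - u - v) ≥ b' (1 - u - b')` (concave in `v`, the value at `v` is at least the value at `b'`
  as `b' ≤ v ≤ (1-u)/2`; up to `O(η)`), so `1/(1-u-v) ≤ v κ`, `κ = 1/(b' (1 - u - b'))` (up to `O(η)`) and `lin_m` (`α = 0`, `β = κ`, range `(b', (1-u)/2 + η]`): inner sum `≤ (1/L) (κ ((1-u)/2 - b') + O(η))`.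
  `κ ((1-u)/2 - b') = (1/(2b')) (1 - b'/(1 - u - b')) ≤ 1.187425 - 2.691632 u` (tangent of the convex function `1/(1-u-b')` at `u = 0.2637`: `≥ 2.320185 + 5.383262 (u - 0.2637)`; `t ≥ 0`: `1/t ≥ 2/t0 - t/t0²`).
  Outer sum with `lin_m`: `≤ 1.187425 log(b/a) - 2.691632 (b - a) + small ≤ 0.1543` (`≥ 0` on `[a, b]`: `1.187425 - 2.691632 · 0.3054 = 0.365`).
(Inner sums are over `PE N b' B` with `B = (1-u)/2 + η ≤ 1`; `q ≤ N`.)
-/

set_option autoImplicit false

namespace Pool.Agent.H9.TM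

open Finset MeasureTheory
open Pool.Agent.H76.TP

private theorem SumA_log : Real.log ((1527 / 5000) / (111 / 500)) ≤ 31895 / 100000 := by
  rw [Real.log_le_iff_le_exp (by norm_num)]
  have h := Real.sum_le_exp_of_nonneg (x := 31895 / 100000) (by norm_num) 6
  refine le_trans ?_ h
  simp only [Finset.sum_range_succ, Finset.sum_range_zero, Nat.factorial]
  norm_num

private theorem SumA_log16 : Real.log 16 ≤ 3 := by
  have h1 : Real.log 16 = 4 * Real.log 2 := by
    rw [show (16 : ℝ) = 2 ^ (4 : ℕ) by norm_num, Real.log_pow]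
    norm_num
  have h2 := Real.log_two_lt_d9
  rw [h1]
  linarith

private theorem SumA_log8 : Real.log 8 ≤ 3 :=
  (Real.log_le_log (by norm_num) (by norm_num)).trans SumA_log16

private theorem SumA_big : ∃ N0 : ℕ, ∀ N : ℕ, N0 ≤ N → (1 : ℝ) < N ∧ 3 ≤ (1 / 100000) * Real.log N := by
  refine ⟨⌈Real.exp 300000⌉₊, fun N hN => ?_⟩
  have h1 : Real.exp 300000 ≤ N := (Nat.le_ceil _).trans (by exact_mod_cast hN)
  have h2 : (1 : ℝ) < Real.exp 300000 := by
    have := Real.add_one_le_exp (300000 : ℝ)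
    linarith
  have h3 : (0 : ℝ) < N := by linarith
  refine ⟨by linarith, ?_⟩
  have h4 := (Real.le_log_iff_exp_le h3).2 h1
  linarith

private theorem SumA_mem {N : ℕ} {s t : ℝ} (hN : (1 : ℝ) < N) {p : ℕ} (hp : p ∈ PE N s t) :
    (0 : ℝ) < p ∧ s < Real.log p / Real.log N ∧ Real.log p / Real.log N ≤ t := by
  unfold PE at hp
  rw [Finset.mem_filter, Finset.mem_Icc] at hp
  obtain ⟨⟨h1, -⟩, -, h3, h4⟩ := hp
  have hp0 : (0 : ℝ) < p := by exact_mod_cast h1
  have hN0 : (0 : ℝ) < N := by linarith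
  have hL : 0 < Real.log N := Real.log_pos hN
  refine ⟨hp0, ?_, ?_⟩
  · rw [lt_div_iff₀ hL]
    rw [Real.rpow_def_of_pos hN0, ← Real.lt_log_iff_exp_lt hp0] at h3
    linarith
  · rw [div_le_iff₀ hL]
    rw [Real.rpow_def_of_pos hN0, ← Real.log_le_iff_le_exp hp0] at h4
    linarith

private theorem SumA_x {N x : ℕ} (hN : (1 : ℝ) < N) (hx : N ≤ 8 * x) :
    (0 : ℝ) < x ∧ Real.log N - 3 ≤ Real.log x := by
  have h1 : (N : ℝ) ≤ 8 * x := by exact_mod_cast hx
  have hx0 : (0 : ℝ) < x := by linarith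
  have h2 := Real.log_le_log (by linarith) h1
  rw [Real.log_mul (by norm_num) hx0.ne'] at h2
  have := SumA_log8
  exact ⟨hx0, by linarith⟩

theorem s1_le : ∃ N0 : ℕ, ∀ N : ℕ, N0 ≤ N → ∀ x : ℕ, N ≤ 8 * x → x ≤ 8 * N →
    ∑ p ∈ PE N (111 / 500) (1527 / 5000), 1 / (p * Real.log ((x : ℝ) / p)) ≤ (4335 / 10000) / Real.log N := by
  obtain ⟨N1, hN1⟩ := SumA_big
  obtain ⟨N2, hN2⟩ := lin_m (1 / 5) 10 (1 / 10000) (by norm_num) (by norm_num) (by norm_num)
  refine ⟨max N1 N2, fun N hN x hx1 _ => ?_⟩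
  obtain ⟨hNr, hηL⟩ := hN1 N (le_trans (le_max_left _ _) hN)
  have hL : 0 < Real.log N := Real.log_pos hNr
  obtain ⟨hx0, hlx⟩ := SumA_x hNr hx1
  have hM := hN2 N (le_trans (le_max_right _ _) hN) (111 / 500) (1527 / 5000) (8746 / 10000) (18506 / 10000)
    (by norm_num) (by norm_num) (by norm_num) (by rw [abs_of_pos (by norm_num)]; norm_num)
    (by rw [abs_of_pos (by norm_num)]; norm_num) (fun u hu => by
      have := hu.1
      linarith)
  have hterm : ∀ p ∈ PE N (111 / 500) (1527 / 5000), 1 / (p * Real.log ((x : ℝ) / p)) ≤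
      1 / Real.log N * ((8746 / 10000 + 18506 / 10000 * (Real.log p / Real.log N)) / p) := by
    intro p hp
    obtain ⟨hp0, hu1, hu2⟩ := SumA_mem hNr hp
    obtain ⟨u, hu⟩ : ∃ u, u = Real.log p / Real.log N := ⟨_, rfl⟩
    have hpu : Real.log p = u * Real.log N := by rw [hu, div_mul_cancel₀ _ hL.ne']
    rw [← hu] at hu1 hu2 ⊢
    have h1 : Real.log N * (1 - 1 / 100000 - u) ≤ Real.log ((x : ℝ) / p) := by
      rw [Real.log_div hx0.ne' hp0.ne', hpu]
      have : Real.log N * (1 - 1 / 100000 - u) = Real.log N - 1 / 100000 * Real.log N - u * Real.log N := by ring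
      rw [this]
      linarith
    have h2 : 0 < 1 - 1 / 100000 - u := by linarith
    have h3 : 1 ≤ (1 - 1 / 100000 - u) * (8746 / 10000 + 18506 / 10000 * u) := by
      nlinarith [mul_nonneg (sub_nonneg.2 hu1.le) (sub_nonneg.2 hu2)]
    have h4 : 1 / (p * Real.log ((x : ℝ) / p)) ≤ 1 / (p * (Real.log N * (1 - 1 / 100000 - u))) :=
      one_div_le_one_div_of_le (by positivity) (mul_le_mul_of_nonneg_left h1 hp0.le)
    refine h4.trans ?_
    rw [div_le_iff₀ (by positivity)]
    have h5 : 1 / Real.log N * ((8746 / 10000 + 18506 / 10000 * u) / p) *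
        (p * (Real.log N * (1 - 1 / 100000 - u))) =
        (1 - 1 / 100000 - u) * (8746 / 10000 + 18506 / 10000 * u) := by
      field_simp
    rw [h5]
    exact h3
  have hl := SumA_log
  calc ∑ p ∈ PE N (111 / 500) (1527 / 5000), 1 / (p * Real.log ((x : ℝ) / p))
      ≤ ∑ p ∈ PE N (111 / 500) (1527 / 5000),
        1 / Real.log N * ((8746 / 10000 + 18506 / 10000 * (Real.log p / Real.log N)) / p) :=
        Finset.sum_le_sum hterm
    _ = 1 / Real.log N * ∑ p ∈ PE N (111 / 500) (1527 / 5000),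
        (8746 / 10000 + 18506 / 10000 * (Real.log p / Real.log N)) / p := by rw [Finset.mul_sum]
    _ ≤ 1 / Real.log N * (4335 / 10000) := by
        refine mul_le_mul_of_nonneg_left (hM.trans ?_) (one_div_pos.2 hL).le
        linarith
    _ = (4335 / 10000) / Real.log N := by ring

theorem s2_le : ∃ N0 : ℕ, ∀ N : ℕ, N0 ≤ N → ∀ x : ℕ, N ≤ 8 * x → x ≤ 8 * N →
    ∑ p ∈ PE N (111 / 500) (1527 / 5000),
      ∑ q ∈ (Icc 1 (16 * N)).filter (fun q : ℕ => q.Prime ∧ (N : ℝ) ^ (3053 / 10000 : ℝ) < q ∧ p * q ^ 2 ≤ 16 * N),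
        1 / (p * q * Real.log ((x : ℝ) / (p * q))) ≤ (1548 / 10000) / Real.log N := by
  obtain ⟨N1, hN1⟩ := SumA_big
  obtain ⟨N2, hN2⟩ := lin_m (1 / 5) 10 (1 / 100000) (by norm_num) (by norm_num) (by norm_num)
  refine ⟨max N1 N2, fun N hN x hx1 _ => ?_⟩
  obtain ⟨hNr, hηL⟩ := hN1 N (le_trans (le_max_left _ _) hN)
  have hM0 := hN2 N (le_trans (le_max_right _ _) hN)
  have hL : 0 < Real.log N := Real.log_pos hNr
  have hN0 : (0 : ℝ) < N := by linarith
  obtain ⟨hx0, hlx⟩ := SumA_x hNr hx1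
  have hM := hM0 (111 / 500) (1527 / 5000) (11877 / 10000) (-(26916 / 10000))
    (by norm_num) (by norm_num) (by norm_num) (by rw [abs_of_pos (by norm_num)]; norm_num)
    (by rw [abs_neg, abs_of_pos (by norm_num)]; norm_num) (fun u hu => by
      have := hu.2
      linarith)
  have hinner : ∀ p ∈ PE N (111 / 500) (1527 / 5000),
      ∑ q ∈ (Icc 1 (16 * N)).filter (fun q : ℕ => q.Prime ∧ (N : ℝ) ^ (3053 / 10000 : ℝ) < q ∧ p * q ^ 2 ≤ 16 * N),
        1 / (p * q * Real.log ((x : ℝ) / (p * q))) ≤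
      1 / Real.log N * ((11877 / 10000 + -(26916 / 10000) * (Real.log p / Real.log N)) / p) := by
    intro p hp
    obtain ⟨hp0, hu1, hu2⟩ := SumA_mem hNr hp
    obtain ⟨u, hu⟩ : ∃ u, u = Real.log p / Real.log N := ⟨_, rfl⟩
    have hpu : Real.log p = u * Real.log N := by rw [hu, div_mul_cancel₀ _ hL.ne']
    rw [← hu] at hu1 hu2 ⊢
    have hc : 0 < 3053 / 10000 * (1 - u - 3053 / 10000) - 1 / 100000 := by linarith
    obtain ⟨κ, hκ⟩ : ∃ κ : ℝ, κ = 1 / (3053 / 10000 * (1 - u - 3053 / 10000) - 1 / 100000) := ⟨_, rfl⟩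
    have hκ0 : 0 < κ := by rw [hκ]; positivity
    have hκ10 : κ ≤ 10 := by
      rw [hκ, div_le_iff₀ hc]
      linarith
    have hκc : κ * (3053 / 10000 * (1 - u - 3053 / 10000) - 1 / 100000) = 1 := by
      rw [hκ]
      exact div_mul_cancel₀ _ hc.ne'
    have hin := hM0 (3053 / 10000) ((1 - u) / 2 + 1 / 100000) 0 κ (by norm_num) (by linarith) (by linarith)
      (by rw [abs_zero]; norm_num) (by rw [abs_of_pos hκ0]; exact hκ10) (fun v hv => by
        have h1 : 0 ≤ v := by linarith [hv.1]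
        have h2 : 0 ≤ κ * v := mul_nonneg hκ0.le h1
        linarith)
    have hqf : ∀ q ∈ (Icc 1 (16 * N)).filter
        (fun q : ℕ => q.Prime ∧ (N : ℝ) ^ (3053 / 10000 : ℝ) < q ∧ p * q ^ 2 ≤ 16 * N),
        (0 : ℝ) < q ∧ 3053 / 10000 < Real.log q / Real.log N ∧
          Real.log q / Real.log N ≤ (1 - u) / 2 + 1 / 100000 ∧ q ∈ PE N (3053 / 10000) ((1 - u) / 2 + 1 / 100000) := by
      intro q hqm
      rw [Finset.mem_filter, Finset.mem_Icc] at hqm
      obtain ⟨⟨h1, -⟩, h2, h8, h3⟩ := hqm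
      have hq0 : (0 : ℝ) < q := by exact_mod_cast h1
      have h5 : (p : ℝ) * (q : ℝ) ^ 2 ≤ 16 * N := by exact_mod_cast h3
      have h6 : Real.log ((p : ℝ) * (q : ℝ) ^ 2) ≤ Real.log (16 * N) :=
        Real.log_le_log (by positivity) h5
      rw [Real.log_mul hp0.ne' (by positivity), Real.log_pow, Real.log_mul (by norm_num) hN0.ne', hpu] at h6
      push_cast at h6
      have h16 := SumA_log16
      have h7 : Real.log q ≤ ((1 - u) / 2 + 1 / 100000) * Real.log N := by
        have : ((1 - u) / 2 + 1 / 100000) * Real.log N =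
          (Real.log N - u * Real.log N) / 2 + 1 / 100000 * Real.log N := by ring
        rw [this]
        linarith
      have h9 : Real.log q / Real.log N ≤ (1 - u) / 2 + 1 / 100000 := by
        rw [div_le_iff₀ hL]
        exact h7
      have h10 : 3053 / 10000 < Real.log q / Real.log N := by
        rw [lt_div_iff₀ hL]
        rw [Real.rpow_def_of_pos hN0, ← Real.lt_log_iff_exp_lt hq0] at h8
        linarith
      have h11 : (q : ℝ) ≤ (N : ℝ) ^ ((1 - u) / 2 + 1 / 100000) := by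
        rw [Real.rpow_def_of_pos hN0, ← Real.log_le_iff_le_exp hq0]
        linarith
      refine ⟨hq0, h10, h9, ?_⟩
      unfold PE
      rw [Finset.mem_filter, Finset.mem_Icc]
      refine ⟨⟨h1, ?_⟩, h2, h8, h11⟩
      have h12 : (N : ℝ) ^ ((1 - u) / 2 + 1 / 100000) ≤ (N : ℝ) ^ (1 : ℝ) :=
        Real.rpow_le_rpow_of_exponent_le hNr.le (by linarith)
      rw [Real.rpow_one] at h12
      exact_mod_cast h11.trans h12
    have hterm : ∀ q ∈ (Icc 1 (16 * N)).filter
        (fun q : ℕ => q.Prime ∧ (N : ℝ) ^ (3053 / 10000 : ℝ) < q ∧ p * q ^ 2 ≤ 16 * N),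
        1 / (p * q * Real.log ((x : ℝ) / (p * q))) ≤
        1 / Real.log N / p * ((0 + κ * (Real.log q / Real.log N)) / q) := by
      intro q hqm
      obtain ⟨hq0, hv1, hv2, -⟩ := hqf q hqm
      obtain ⟨v, hv⟩ : ∃ v, v = Real.log q / Real.log N := ⟨_, rfl⟩
      have hqv : Real.log q = v * Real.log N := by rw [hv, div_mul_cancel₀ _ hL.ne']
      rw [← hv] at hv1 hv2 ⊢
      have hD : 0 < 1 - 1 / 100000 - u - v := by linarith
      have h1 : Real.log N * (1 - 1 / 100000 - u - v) ≤ Real.log ((x : ℝ) / (p * q)) := by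
        rw [Real.log_div hx0.ne' (mul_pos hp0 hq0).ne', Real.log_mul hp0.ne' hq0.ne', hpu, hqv]
        have : Real.log N * (1 - 1 / 100000 - u - v) =
          Real.log N - 1 / 100000 * Real.log N - u * Real.log N - v * Real.log N := by ring
        rw [this]
        linarith
      have h2 : 3053 / 10000 * (1 - u - 3053 / 10000) - 1 / 100000 ≤ v * (1 - 1 / 100000 - u - v) := by
        have h3 : v * (1 - 1 / 100000 - u - v) -
          (3053 / 10000 * (1 - u - 3053 / 10000) - 1 / 100000) =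
          (v - 3053 / 10000) * (1 - u - v - 3053 / 10000) + (1 - v) / 100000 := by ring
        have h4 : 0 ≤ (v - 3053 / 10000) * (1 - u - v - 3053 / 10000) :=
          mul_nonneg (by linarith) (by linarith)
        have h5 : 0 ≤ (1 - v) / 100000 := by linarith
        linarith
      have h3 : 1 ≤ κ * v * (1 - 1 / 100000 - u - v) := by
        have := mul_le_mul_of_nonneg_left h2 hκ0.le
        rw [hκc] at this
        calc (1 : ℝ) ≤ κ * (v * (1 - 1 / 100000 - u - v)) := this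
          _ = κ * v * (1 - 1 / 100000 - u - v) := by ring
      have h4 : 1 / (p * q * Real.log ((x : ℝ) / (p * q))) ≤
          1 / (p * q * (Real.log N * (1 - 1 / 100000 - u - v))) :=
        one_div_le_one_div_of_le (by positivity) (mul_le_mul_of_nonneg_left h1 (by positivity))
      refine h4.trans ?_
      rw [div_le_iff₀ (by positivity)]
      have h5 : 1 / Real.log N / p * ((0 + κ * v) / q) *
          (p * q * (Real.log N * (1 - 1 / 100000 - u - v))) = κ * v * (1 - 1 / 100000 - u - v) := by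
        rw [zero_add]
        field_simp
      rw [h5]
      exact h3
    have hfin : κ * ((1 - u) / 2 + 1 / 100000 - 3053 / 10000) + 1 / 100000 ≤
        11877 / 10000 + -(26916 / 10000) * u := by
      have h1 : (1 - u) / 2 + 1 / 100000 - 3053 / 10000 ≤
          (11876 / 10000 - 26916 / 10000 * u) * (3053 / 10000 * (1 - u - 3053 / 10000) - 1 / 100000) := by
        nlinarith [sq_nonneg (u - 2637 / 10000)]
      have h2 : κ * ((1 - u) / 2 + 1 / 100000 - 3053 / 10000) ≤ 11876 / 10000 - 26916 / 10000 * u := by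
        have h3 := mul_le_mul_of_nonneg_left h1 hκ0.le
        calc κ * ((1 - u) / 2 + 1 / 100000 - 3053 / 10000) ≤ _ := h3
          _ = (11876 / 10000 - 26916 / 10000 * u) *
            (κ * (3053 / 10000 * (1 - u - 3053 / 10000) - 1 / 100000)) := by ring
          _ = 11876 / 10000 - 26916 / 10000 * u := by rw [hκc, mul_one]
      linarith
    calc ∑ q ∈ (Icc 1 (16 * N)).filter
          (fun q : ℕ => q.Prime ∧ (N : ℝ) ^ (3053 / 10000 : ℝ) < q ∧ p * q ^ 2 ≤ 16 * N),
          1 / (p * q * Real.log ((x : ℝ) / (p * q)))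
        ≤ ∑ q ∈ (Icc 1 (16 * N)).filter
            (fun q : ℕ => q.Prime ∧ (N : ℝ) ^ (3053 / 10000 : ℝ) < q ∧ p * q ^ 2 ≤ 16 * N),
          1 / Real.log N / p * ((0 + κ * (Real.log q / Real.log N)) / q) := Finset.sum_le_sum hterm
      _ ≤ ∑ q ∈ PE N (3053 / 10000) ((1 - u) / 2 + 1 / 100000),
          1 / Real.log N / p * ((0 + κ * (Real.log q / Real.log N)) / q) := by
          refine Finset.sum_le_sum_of_subset_of_nonneg (fun q hq => (hqf q hq).2.2.2) ?_
          intro q hq _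
          obtain ⟨hq0, hv1, -⟩ := SumA_mem hNr hq
          have h1 : 0 < Real.log q / Real.log N := by linarith
          positivity
      _ = 1 / Real.log N / p * ∑ q ∈ PE N (3053 / 10000) ((1 - u) / 2 + 1 / 100000),
            (0 + κ * (Real.log q / Real.log N)) / q := by rw [Finset.mul_sum]
      _ ≤ 1 / Real.log N / p * (11877 / 10000 + -(26916 / 10000) * u) := by
          refine mul_le_mul_of_nonneg_left (hin.trans ?_) (by positivity)
          rw [zero_mul, zero_add]
          exact hfin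
      _ = 1 / Real.log N * ((11877 / 10000 + -(26916 / 10000) * u) / p) := by ring
  have hl := SumA_log
  calc ∑ p ∈ PE N (111 / 500) (1527 / 5000),
      ∑ q ∈ (Icc 1 (16 * N)).filter (fun q : ℕ => q.Prime ∧ (N : ℝ) ^ (3053 / 10000 : ℝ) < q ∧ p * q ^ 2 ≤ 16 * N),
        1 / (p * q * Real.log ((x : ℝ) / (p * q)))
      ≤ ∑ p ∈ PE N (111 / 500) (1527 / 5000),
        1 / Real.log N * ((11877 / 10000 + -(26916 / 10000) * (Real.log p / Real.log N)) / p) :=
        Finset.sum_le_sum hinner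
    _ = 1 / Real.log N * ∑ p ∈ PE N (111 / 500) (1527 / 5000),
        (11877 / 10000 + -(26916 / 10000) * (Real.log p / Real.log N)) / p := by rw [Finset.mul_sum]
    _ ≤ 1 / Real.log N * (1548 / 10000) := by
        refine mul_le_mul_of_nonneg_left (hM.trans ?_) (one_div_pos.2 hL).le
        linarith
    _ = (1548 / 10000) / Real.log N := by ring

end Pool.Agent.H9.TM
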