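import Pool.Agent.H9.TM.LinM

/-!
# TM SumB: the sum of `E_3` with two small primes

`a = 111/500`, `b = 1527/5000`, `u = log p/L`, `v = log q/L ∈ (a, b]`, `log(x/(pq)) ≥ L (1 - u - v) - log 8 ≥ L (1 - η - u - v)`.  With `U = u - a`, `V = v - a ∈ [0, 0.0834]`: `1/(0.556 - U - V) ≤ 1.798562 + 4.621176 (U + V)`
(chord on `[0, 0.1668]`; `(0.556 - s)(chord) ≥ 1` is a quadratic inequality; slightly larger coefficients for `η`).  `S0 = ∑ 1/p ≤ log(b/a) + ε ≤ 0.31896` (`α = 1`, `β = 0`), `S1 = ∑ U/p ≤ (b - a) - a log(b/a) + ε`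
(`α = -a`, `β = 1`; `log(b/a) ≥ 0.3189`: `≤ 0.012605`), both `lin_m`.  All ordered pairs: `≤ (1/L) (1.798562 S0² + 2 · 4.621176 S0 S1) ≤ 0.2202/L`; the pairs `p < q` are half of it (symmetry, `sum_comm`).
-/

set_option autoImplicit false

namespace Pool.Agent.H9.TM

open Finset MeasureTheory
open Pool.Agent.H76.TP


private theorem SumB_log_up : Real.log (1527 / 5000 / (111 / 500)) ≤ 31896 / 100000 := by
  have h2 := Real.log_two_lt_d9
  have e1 : (1527 / 5000 / (111 / 500) : ℝ) = 1527 / 1110 := by norm_num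
  rw [e1]
  have h3 : Real.log ((1527 / 1110 : ℝ) ^ 13 / 2 ^ 6) ≤ (1527 / 1110 : ℝ) ^ 13 / 2 ^ 6 - 1 :=
    Real.log_le_sub_one_of_pos (by positivity)
  rw [Real.log_div (by positivity) (by positivity), Real.log_pow, Real.log_pow] at h3
  have h4 : (1527 / 1110 : ℝ) ^ 13 / 2 ^ 6 - 1 ≤ -125 / 10000 := by norm_num
  push_cast at h3
  linarith

private theorem SumB_log_lo : 3189 / 10000 ≤ Real.log (1527 / 5000 / (111 / 500)) := by
  have h2 := Real.log_two_gt_d9
  have e1 : (1527 / 5000 / (111 / 500) : ℝ) = 1527 / 1110 := by norm_num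
  rw [e1]
  have h3 : Real.log (2 ^ 6 / (1527 / 1110 : ℝ) ^ 13) ≤ 2 ^ 6 / (1527 / 1110 : ℝ) ^ 13 - 1 :=
    Real.log_le_sub_one_of_pos (by positivity)
  rw [Real.log_div (by positivity) (by positivity), Real.log_pow, Real.log_pow] at h3
  have h4 : 2 ^ 6 / (1527 / 1110 : ℝ) ^ 13 - 1 ≤ 127 / 10000 := by norm_num
  push_cast at h3
  linarith

/-- the chord -/
private theorem SumB_chord (η s t : ℝ) (hη : η ≤ 1 / 100000) (hs : 0 ≤ s)
    (hs2 : s ≤ 1668 / 10000) (ht : 556 / 1000 - η - s ≤ t) :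
    0 < t ∧ 1 / t ≤ 17987 / 10000 + 46212 / 10000 * s := by
  have ht0 : 0 < t := by linarith
  refine ⟨ht0, ?_⟩
  rw [div_le_iff₀ ht0]
  have h1 : (17987 / 10000 + 46212 / 10000 * s) * (556 / 1000 - 1 / 100000 - s) ≤
      (17987 / 10000 + 46212 / 10000 * s) * t :=
    mul_le_mul_of_nonneg_left (by linarith) (by positivity)
  refine le_trans ?_ h1
  nlinarith [mul_nonneg hs (sub_nonneg.2 hs2)]

private theorem SumB_half (P : Finset ℕ) (G : ℕ → ℕ → ℝ) (h0 : ∀ p ∈ P, ∀ q ∈ P, 0 ≤ G p q)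
    (hs : ∀ p q, G p q = G q p) :
    2 * ∑ p ∈ P, ∑ q ∈ P.filter (fun q => p < q), G p q ≤ ∑ p ∈ P, ∑ q ∈ P, G p q := by
  have h1 : ∑ p ∈ P, ∑ q ∈ P.filter (fun q => p < q), G p q =
      ∑ p ∈ P, ∑ q ∈ P.filter (fun q => q < p), G p q := by
    rw [sum_comm' (t' := P) (s' := fun q => P.filter (fun p => p < q))]
    · exact sum_congr rfl fun p _ => sum_congr rfl fun q _ => hs q p
    · intro p q
      simp only [mem_filter]
      tauto
  calc 2 * ∑ p ∈ P, ∑ q ∈ P.filter (fun q => p < q), G p q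
      = ∑ p ∈ P, ∑ q ∈ P.filter (fun q => p < q), G p q +
        ∑ p ∈ P, ∑ q ∈ P.filter (fun q => q < p), G p q := by
        rw [← h1]
        ring
    _ = ∑ p ∈ P, (∑ q ∈ P.filter (fun q => p < q), G p q +
        ∑ q ∈ P.filter (fun q => q < p), G p q) := by rw [sum_add_distrib]
    _ ≤ ∑ p ∈ P, ∑ q ∈ P, G p q := by
        refine sum_le_sum fun p hp => ?_
        rw [← sum_union]
        · refine sum_le_sum_of_subset_of_nonneg ?_ fun q hq _ => h0 p hp q hq
          intro q hq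
          rw [mem_union, mem_filter, mem_filter] at hq
          rcases hq with hq | hq
          · exact hq.1
          · exact hq.1
        · rw [disjoint_left]
          intro q h2 h3
          rw [mem_filter] at h2 h3
          omega

private theorem SumB_full (P : Finset ℕ) (f : ℕ → ℝ) (c d : ℝ) :
    ∑ p ∈ P, ∑ q ∈ P, (c + d * (f p + f q)) / ((p : ℝ) * q) =
      c * (∑ p ∈ P, 1 / (p : ℝ)) ^ 2 + 2 * d * ((∑ p ∈ P, 1 / (p : ℝ)) * ∑ p ∈ P, f p / (p : ℝ)) := by
  have h1 : ∀ p q : ℕ, (c + d * (f p + f q)) / ((p : ℝ) * q) =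
      c * (1 / (p : ℝ) * (1 / (q : ℝ))) + d * (f p / (p : ℝ) * (1 / (q : ℝ))) +
        d * (1 / (p : ℝ) * (f q / (q : ℝ))) := by
    intro p q
    rw [div_eq_mul_inv, mul_inv]
    ring
  simp only [h1, sum_add_distrib, ← mul_sum, ← sum_mul]
  ring

theorem s3_le : ∃ N0 : ℕ, ∀ N : ℕ, N0 ≤ N → ∀ x : ℕ, N ≤ 8 * x → x ≤ 8 * N →
    ∑ p ∈ PE N (111 / 500) (1527 / 5000), ∑ q ∈ (PE N (111 / 500) (1527 / 5000)).filter (fun q => p < q),
        1 / (p * q * Real.log ((x : ℝ) / (p * q))) ≤ (1102 / 10000) / Real.log N := by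
  obtain ⟨N1, hN1⟩ := lin_m (111 / 500) 1 (1 / 1000000) (by norm_num) (by norm_num) (by norm_num)
  obtain ⟨N2, hN2⟩ := exists_nat_ge (Real.exp (100000 * Real.log 8))
  refine ⟨max N1 (max N2 3), fun N hN x hx1 hx2 => ?_⟩
  have hNN1 : N1 ≤ N := le_trans (le_max_left _ _) hN
  have hNN2 : N2 ≤ N := le_trans (le_trans (le_max_left _ _) (le_max_right _ _)) hN
  have hN3 : 3 ≤ N := le_trans (le_trans (le_max_right _ _) (le_max_right _ _)) hN
  have hNp : (0 : ℝ) < N := by exact_mod_cast (by omega : 0 < N)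
  have hL1 : 100000 * Real.log 8 ≤ Real.log N := by
    have h1 : Real.exp (100000 * Real.log 8) ≤ N := hN2.trans (by exact_mod_cast hNN2)
    exact (Real.le_log_iff_exp_le hNp).2 h1
  have h8 : 0 < Real.log 8 := Real.log_pos (by norm_num)
  have hL : 0 < Real.log N := by linarith
  set L := Real.log N with hLd
  set P := PE N (111 / 500) (1527 / 5000) with hPd
  -- elements of P
  have hP : ∀ p ∈ P, (0 : ℝ) < p ∧ 0 ≤ Real.log p / L - 111 / 500 ∧
      Real.log p / L - 111 / 500 ≤ 834 / 10000 := by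
    intro p hp
    rw [hPd, PE, mem_filter] at hp
    obtain ⟨hp1, hpp, h1, h2⟩ := hp
    have hp0 : (0 : ℝ) < p := by exact_mod_cast hpp.pos
    refine ⟨hp0, ?_, ?_⟩
    · have h3 : (111 / 500 : ℝ) * L ≤ Real.log p := by
        rw [hLd, ← Real.log_rpow hNp]
        exact Real.log_le_log (Real.rpow_pos_of_pos hNp _) h1.le
      have h4 : (111 / 500 : ℝ) ≤ Real.log p / L := by
        rw [le_div_iff₀ hL]
        exact h3
      linarith
    · have h3 : Real.log p ≤ (1527 / 5000 : ℝ) * L := by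
        rw [hLd, ← Real.log_rpow hNp]
        exact Real.log_le_log hp0 h2
      have h4 : Real.log p / L ≤ (1527 / 5000 : ℝ) := by
        rw [div_le_iff₀ hL]
        exact h3
      linarith
  set f : ℕ → ℝ := fun p => Real.log p / L - 111 / 500 with hfd
  have hS0 : ∑ p ∈ P, 1 / (p : ℝ) ≤ 31897 / 100000 := by
    have h1 := hN1 N hNN1 (111 / 500) (1527 / 5000) 1 0 le_rfl (by norm_num) (by norm_num)
      (by norm_num) (by norm_num) (fun u _ => by norm_num)
    have h2 := SumB_log_up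
    have h3 : ∑ p ∈ P, 1 / (p : ℝ) = ∑ p ∈ PE N (111 / 500) (1527 / 5000),
        (1 + 0 * (Real.log p / Real.log N)) / (p : ℝ) :=
      sum_congr rfl fun p _ => by rw [zero_mul, add_zero]
    rw [h3]
    linarith
  have hS1 : ∑ p ∈ P, f p / (p : ℝ) ≤ 12607 / 1000000 := by
    have h1 := hN1 N hNN1 (111 / 500) (1527 / 5000) (-(111 / 500)) 1 le_rfl (by norm_num) (by norm_num)
      (by rw [abs_neg, abs_of_pos (by norm_num)]; norm_num) (by norm_num) (fun u hu => by linarith [hu.1])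
    have h2 := SumB_log_lo
    have h3 : ∑ p ∈ P, f p / (p : ℝ) = ∑ p ∈ PE N (111 / 500) (1527 / 5000),
        (-(111 / 500) + 1 * (Real.log p / Real.log N)) / (p : ℝ) :=
      sum_congr rfl fun p _ => by
        rw [hfd]
        show (Real.log p / L - 111 / 500) / (p : ℝ) = _
        congr 1
        ring
    rw [h3]
    linarith
  have hS00 : 0 ≤ ∑ p ∈ P, 1 / (p : ℝ) := sum_nonneg fun p _ => by positivity
  have hS10 : 0 ≤ ∑ p ∈ P, f p / (p : ℝ) := sum_nonneg fun p hp => div_nonneg (hP p hp).2.1 (hP p hp).1.le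
  -- one term
  have hterm : ∀ p ∈ P, ∀ q ∈ P, 1 / (p * q * Real.log ((x : ℝ) / (p * q))) ≤
      1 / L * ((17987 / 10000 + 46212 / 10000 * (f p + f q)) / ((p : ℝ) * q)) := by
    intro p hp q hq
    obtain ⟨hp0, hpa, hpb⟩ := hP p hp
    obtain ⟨hq0, hqa, hqb⟩ := hP q hq
    have hx0 : (0 : ℝ) < x := by
      have : 0 < x := by omega
      exact_mod_cast this
    have hxN : Real.log N - Real.log 8 ≤ Real.log x := by
      rw [← Real.log_div hNp.ne' (by norm_num)]
      refine Real.log_le_log (by positivity) ?_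
      rw [div_le_iff₀ (by norm_num)]
      have : (N : ℝ) ≤ 8 * x := by exact_mod_cast hx1
      linarith
    have hlog : Real.log ((x : ℝ) / (p * q)) = Real.log x - (Real.log p + Real.log q) := by
      rw [Real.log_div hx0.ne' (by positivity), Real.log_mul hp0.ne' hq0.ne']
    set η := Real.log 8 / L with hη
    have hη1 : η ≤ 1 / 100000 := by
      rw [hη, div_le_iff₀ hL]
      linarith
    have hge : 556 / 1000 - η - (f p + f q) ≤ Real.log ((x : ℝ) / (p * q)) / L := by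
      rw [hlog, le_div_iff₀ hL]
      have e1 : Real.log p / L * L = Real.log p := div_mul_cancel₀ _ hL.ne'
      have e2 : Real.log q / L * L = Real.log q := div_mul_cancel₀ _ hL.ne'
      have e3 : η * L = Real.log 8 := div_mul_cancel₀ _ hL.ne'
      have e4 : (556 / 1000 - η - (f p + f q)) * L = 556 / 1000 * L - η * L -
          (Real.log p / L * L - 111 / 500 * L + (Real.log q / L * L - 111 / 500 * L)) := by
        rw [hfd]
        ring
      rw [e4, e1, e2, e3]
      linarith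
    obtain ⟨ht0, ht⟩ := SumB_chord η (f p + f q) _ hη1 (add_nonneg hpa hqa) (by
      have h5 : f p ≤ 834 / 10000 := hpb
      have h6 : f q ≤ 834 / 10000 := hqb
      linarith) hge
    have hpq : (0 : ℝ) < p * q := mul_pos hp0 hq0
    have e5 : 1 / ((p : ℝ) * q * Real.log ((x : ℝ) / (p * q))) =
        1 / L * (1 / (Real.log ((x : ℝ) / (p * q)) / L) / ((p : ℝ) * q)) := by
      have hlg : Real.log ((x : ℝ) / (p * q)) ≠ 0 := by
        intro h0
        rw [h0, zero_div] at ht0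
        exact lt_irrefl _ ht0
      field_simp
    rw [e5]
    refine mul_le_mul_of_nonneg_left ?_ (by positivity)
    exact div_le_div_of_nonneg_right ht hpq.le
  set G : ℕ → ℕ → ℝ := fun p q => (17987 / 10000 + 46212 / 10000 * (f p + f q)) / ((p : ℝ) * q) with hGd
  have hG0 : ∀ p ∈ P, ∀ q ∈ P, 0 ≤ G p q := by
    intro p hp q hq
    have h5 : 0 ≤ f p := (hP p hp).2.1
    have h6 : 0 ≤ f q := (hP q hq).2.1
    have h7 := (hP p hp).1
    have h8 := (hP q hq).1
    rw [hGd]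
    positivity
  have hGs : ∀ p q, G p q = G q p := by
    intro p q
    rw [hGd]
    show (17987 / 10000 + 46212 / 10000 * (f p + f q)) / ((p : ℝ) * q) =
      (17987 / 10000 + 46212 / 10000 * (f q + f p)) / ((q : ℝ) * p)
    rw [add_comm (f p) (f q), mul_comm (p : ℝ) q]
  have hhalf := SumB_half P G hG0 hGs
  have hfull : ∑ p ∈ P, ∑ q ∈ P, G p q = _ := SumB_full P f (17987 / 10000) (46212 / 10000)
  have hb : ∑ p ∈ P, ∑ q ∈ P.filter (fun q => p < q), G p q ≤ 1102 / 10000 := by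
    have h1 : (∑ p ∈ P, 1 / (p : ℝ)) ^ 2 ≤ (31897 / 100000) ^ 2 := pow_le_pow_left₀ hS00 hS0 2
    have h2 : (∑ p ∈ P, 1 / (p : ℝ)) * ∑ p ∈ P, f p / (p : ℝ) ≤ 31897 / 100000 * (12607 / 1000000) :=
      mul_le_mul hS0 hS1 hS10 (by norm_num)
    rw [hfull] at hhalf
    linarith
  calc ∑ p ∈ P, ∑ q ∈ P.filter (fun q => p < q), 1 / (p * q * Real.log ((x : ℝ) / (p * q)))
      ≤ ∑ p ∈ P, ∑ q ∈ P.filter (fun q => p < q), 1 / L * G p q :=
        sum_le_sum fun p hp => sum_le_sum fun q hq => hterm p hp q (mem_filter.1 hq).1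
    _ = 1 / L * ∑ p ∈ P, ∑ q ∈ P.filter (fun q => p < q), G p q := by
        rw [mul_sum]
        exact sum_congr rfl fun p _ => by rw [mul_sum]
    _ ≤ 1 / L * (1102 / 10000) := mul_le_mul_of_nonneg_left hb (by positivity)
    _ = (1102 / 10000) / L := by ring

end Pool.Agent.H9.TM
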