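import Pool.Agent.H9.TM.LinM

/-!
# TM SumC: the sum of `E_4`

`a = 111/500`; `p ≤ q ≤ r`, `p q r² ≤ 16 N`, so `(p q r)^4 ≤ (16 N)^3`, `log(x/(pqr)) ≥ (1/4 - η) L`.  `t_i = log(.)/L`, `E = 1 + η` (`16 N ≤ N^E`), `t1 + t2 + 2 t3 ≤ E`.
* `r`: `1 ≤ t3/a`, so `∑_r 1/r ≤ (1/a) ∑_r t3/r ≤ (1/a) ((E - t1 - t2)/2 - t2 + η) + ε` (`lin_m` with `α = 0`, `β = 1` on `[t2 - η, (E - t1 - t2)/2]`, if `t1 + 3 t2 ≤ E`; otherwise the sum is empty).
* `q`: `1 ≤ t2/a` and `mert_r` with `f(t) = t (E - t1 - 3t)_+` on `[t1 - η, 3/10]`: `∑_q (1/q) (E - t1 - 3 t2)_+ ≤ (1/a) (∫_{t1-η}^{3/10} (E - t1 - 3t)_+ dt + ε) ≤ (1/a) ((E - 4 t1 + 3η)²/6 + ε)` (`t1 ≤ E/4`).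
* `p`: the same with `f(t) = t (E + 3η - 4t)²_+`: `(1/a) ((E + 3η - 4a)³/12 + ε)`.
Sum `≤ (1/L) · (4 + ..) · a^(-3) · (1/2)(1/6)(1/12) (0.112 + ..)³ = (4/144) (0.112/0.222)³ = 0.003567`, allowed `0.004`.
-/

set_option autoImplicit false

namespace Pool.Agent.H9.TM

open Finset MeasureTheory
open Pool.Agent.H76.TP

/-- sums over primes of `g(log p/log N)/p` with the weight `1 ≤ t/a0` -/
private theorem SumC_A (a0 M ε : ℝ) (ha0 : 0 < a0) (hM : 0 < M) (hε : 0 < ε) :
    ∃ N0 : ℕ, ∀ N : ℕ, N0 ≤ N →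
      ∀ (s b : ℝ) (g : ℝ → ℝ), a0 ≤ s → s ≤ b → b ≤ 1 → (∀ u ∈ Set.Icc s b, 0 ≤ g u ∧ g u ≤ M) →
        (∀ u ∈ Set.Icc s b, ∀ v ∈ Set.Icc s b, |g u - g v| ≤ M * |u - v|) →
        a0 * ∑ p ∈ PE N s b, g (Real.log p / Real.log N) / p ≤ (∫ u in s..b, g u) + ε := by
  obtain ⟨N0, hN0⟩ := mert_r a0 (2 * M) ε ha0 (by linarith) hε
  refine ⟨max N0 2, fun N hN s b g hs hsb hb hg hgL => ?_⟩
  have hNN : N0 ≤ N := (le_max_left _ _).trans hN
  have hN2 : 2 ≤ N := (le_max_right _ _).trans hN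
  have hN1 : (1 : ℝ) < N := by exact_mod_cast (by omega : 1 < N)
  have hNp : (0 : ℝ) < N := by linarith
  have hL : 0 < Real.log N := Real.log_pos hN1
  have h := hN0 N hNN s b (fun u => u * g u) hs hsb hb (by
      intro u hu
      have h1 := hg u hu
      have hu0 : 0 ≤ u := by linarith [hu.1]
      have hu1 : u ≤ 1 := by linarith [hu.2]
      refine ⟨mul_nonneg hu0 h1.1, ?_⟩
      have h2 : u * g u ≤ 1 * M := mul_le_mul hu1 h1.2 h1.1 zero_le_one
      show u * g u ≤ 2 * M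
      linarith) (by
      intro u hu v hv
      have h1 := hgL u hu v hv
      have h2 := hg v hv
      have hu0 : 0 ≤ u := by linarith [hu.1]
      have hu1 : u ≤ 1 := by linarith [hu.2]
      have e : u * g u - v * g v = u * (g u - g v) + (u - v) * g v := by ring
      show |u * g u - v * g v| ≤ 2 * M * |u - v|
      rw [e]
      have h3 := abs_add_le (u * (g u - g v)) ((u - v) * g v)
      rw [abs_mul, abs_mul, abs_of_nonneg hu0, abs_of_nonneg h2.1] at h3
      have h4 : u * |g u - g v| ≤ 1 * (M * |u - v|) :=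
        mul_le_mul hu1 h1 (abs_nonneg _) zero_le_one
      have h5 : |u - v| * g v ≤ |u - v| * M := mul_le_mul_of_nonneg_left h2.2 (abs_nonneg _)
      linarith)
  have hint : (∫ u in s..b, (fun u => u * g u) u / u) = ∫ u in s..b, g u := by
    refine intervalIntegral.integral_congr fun u hu => ?_
    rw [Set.uIcc_of_le hsb] at hu
    have hu0 : u ≠ 0 := by
      have := hu.1
      intro h0
      linarith
    show u * g u / u = g u
    field_simp
  rw [hint] at h
  refine le_trans ?_ h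
  unfold PE
  rw [mul_sum]
  refine sum_le_sum fun p hp => ?_
  rw [mem_filter] at hp
  obtain ⟨_, hpp, h1, h2⟩ := hp
  have hp0 : (0 : ℝ) < p := by exact_mod_cast hpp.pos
  have hu : Real.log p / Real.log N ∈ Set.Icc s b := by
    constructor
    · rw [le_div_iff₀ hL, ← Real.log_rpow hNp]
      exact Real.log_le_log (by positivity) h1.le
    · rw [div_le_iff₀ hL, ← Real.log_rpow hNp]
      exact Real.log_le_log hp0 h2
  have h3 := (hg _ hu).1
  show a0 * (g (Real.log p / Real.log N) / p) ≤ Real.log p / Real.log N * g (Real.log p / Real.log N) / p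
  rw [← mul_div_assoc]
  refine div_le_div_of_nonneg_right (mul_le_mul_of_nonneg_right ?_ h3) hp0.le
  linarith [hu.1]

private theorem SumC_int1 (s c : ℝ) : (∫ u in s..(c / 3), (c - 3 * u)) = (c - 3 * s) ^ 2 / 6 := by
  have hd : ∀ u ∈ Set.uIcc s (c / 3), HasDerivAt (fun u : ℝ => -(c - 3 * u) ^ 2 / 6) (c - 3 * u) u := by
    intro u _
    have h1 : HasDerivAt (fun u : ℝ => c - 3 * u) (-(3 * 1)) u :=
      ((hasDerivAt_id u).const_mul 3).const_sub c
    have h2 := ((h1.pow 2).neg).div_const 6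
    have e : -(((2 : ℕ) : ℝ) * (c - 3 * u) ^ (2 - 1) * -(3 * 1)) / 6 = c - 3 * u := by
      norm_num
      ring
    rw [e] at h2
    exact h2
  rw [intervalIntegral.integral_eq_sub_of_hasDerivAt hd
    ((continuous_const.sub (continuous_const.mul continuous_id)).intervalIntegrable _ _)]
  ring

private theorem SumC_int2 (s c d : ℝ) : (∫ u in s..(c / 4), ((c - 4 * u) ^ 2 + d)) =
    (c - 4 * s) ^ 3 / 12 + d * (c / 4 - s) := by
  have hd : ∀ u ∈ Set.uIcc s (c / 4),
      HasDerivAt (fun u : ℝ => -(c - 4 * u) ^ 3 / 12 + d * u) ((c - 4 * u) ^ 2 + d) u := by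
    intro u _
    have h1 : HasDerivAt (fun u : ℝ => c - 4 * u) (-(4 * 1)) u :=
      ((hasDerivAt_id u).const_mul 4).const_sub c
    have h2 := (((h1.pow 3).neg).div_const 12).add ((hasDerivAt_id u).const_mul d)
    have e : -(((3 : ℕ) : ℝ) * (c - 4 * u) ^ (3 - 1) * -(4 * 1)) / 12 + d * 1 = (c - 4 * u) ^ 2 + d := by
      norm_num
      ring
    rw [e] at h2
    exact h2
  rw [intervalIntegral.integral_eq_sub_of_hasDerivAt hd (Continuous.intervalIntegrable (by fun_prop) _ _)]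
  ring

private theorem SumC_rpow_lt {N q : ℕ} {a : ℝ} (hN : (0 : ℝ) < N) (hq : (0 : ℝ) < q) :
    (N : ℝ) ^ a < q ↔ a * Real.log N < Real.log q := by
  rw [Real.rpow_def_of_pos hN, ← Real.lt_log_iff_exp_lt hq, mul_comm]

private theorem SumC_le_rpow {N q : ℕ} {a : ℝ} (hN : (0 : ℝ) < N) (hq : (0 : ℝ) < q) :
    (q : ℝ) ≤ (N : ℝ) ^ a ↔ Real.log q ≤ a * Real.log N := by
  rw [Real.rpow_def_of_pos hN, ← Real.log_le_iff_le_exp hq, mul_comm]

private theorem SumC_log16 : Real.log 16 ≤ 3 := by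
  have h1 : Real.log 16 = 4 * Real.log 2 := by
    rw [show (16 : ℝ) = 2 ^ (4 : ℕ) by norm_num, Real.log_pow]
    norm_num
  have h2 := Real.log_two_lt_d9
  rw [h1]
  linarith

private theorem SumC_log8 : Real.log 8 ≤ 3 := by
  have h1 : Real.log 8 = 3 * Real.log 2 := by
    rw [show (8 : ℝ) = 2 ^ (3 : ℕ) by norm_num, Real.log_pow]
    norm_num
  have h2 := Real.log_two_lt_d9
  rw [h1]
  linarith

/-- the data of a number `N` for which everything holds -/
private structure SumC_ok (N : ℕ) : Prop where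
  pos : (0 : ℝ) < N
  big : 30000 ≤ Real.log N
  sum : ∀ (s b : ℝ) (g : ℝ → ℝ), 2219 / 10000 ≤ s → s ≤ b → b ≤ 1 →
    (∀ u ∈ Set.Icc s b, 0 ≤ g u ∧ g u ≤ 10) →
    (∀ u ∈ Set.Icc s b, ∀ v ∈ Set.Icc s b, |g u - g v| ≤ 10 * |u - v|) →
    2219 / 10000 * ∑ p ∈ PE N s b, g (Real.log p / Real.log N) / p ≤ (∫ u in s..b, g u) + 1 / 1000000

private theorem SumC_ok_ex : ∃ N0 : ℕ, ∀ N : ℕ, N0 ≤ N → SumC_ok N := by
  obtain ⟨N1, hN1⟩ := SumC_A (2219 / 10000) 10 (1 / 1000000) (by norm_num) (by norm_num) (by norm_num)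
  refine ⟨max N1 (max 1 ⌈Real.exp 30000⌉₊), fun N hN => ?_⟩
  have h1 : N1 ≤ N := (le_max_left _ _).trans hN
  have h2 : 1 ≤ N := (le_max_left _ _).trans ((le_max_right _ _).trans hN)
  have h3 : Real.exp 30000 ≤ N :=
    (Nat.le_ceil _).trans (by exact_mod_cast (le_max_right _ _).trans ((le_max_right _ _).trans hN))
  have hN0 : (0 : ℝ) < N := by exact_mod_cast h2
  exact ⟨hN0, (Real.le_log_iff_exp_le hN0).2 h3, hN1 N h1⟩

/-- elements of `PE N s b` in terms of logarithms -/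
private theorem SumC_mem {N p : ℕ} {s b : ℝ} (h : SumC_ok N) (hp : p ∈ PE N s b) :
    p.Prime ∧ (0 : ℝ) < p ∧ s < Real.log p / Real.log N ∧ Real.log p / Real.log N ≤ b := by
  have hL : 0 < Real.log N := by linarith [h.big]
  unfold PE at hp
  rw [mem_filter] at hp
  obtain ⟨_, hpp, h1, h2⟩ := hp
  have hp0 : (0 : ℝ) < p := by exact_mod_cast hpp.pos
  refine ⟨hpp, hp0, ?_, ?_⟩
  · rw [lt_div_iff₀ hL]
    exact (SumC_rpow_lt h.pos hp0).1 h1
  · rw [div_le_iff₀ hL]
    exact (SumC_le_rpow h.pos hp0).1 h2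

private theorem SumC_mem' {N p : ℕ} {s b : ℝ} (h : SumC_ok N) (hpp : p.Prime) (hb : b ≤ 1)
    (h1 : s < Real.log p / Real.log N) (h2 : Real.log p / Real.log N ≤ b) : p ∈ PE N s b := by
  have hL : 0 < Real.log N := by linarith [h.big]
  have hp0 : (0 : ℝ) < p := by exact_mod_cast hpp.pos
  have h3 : (p : ℝ) ≤ (N : ℝ) ^ b := by
    rw [SumC_le_rpow h.pos hp0]
    rwa [div_le_iff₀ hL] at h2
  have h4 : (N : ℝ) ^ s < p := by
    rw [SumC_rpow_lt h.pos hp0]
    rwa [lt_div_iff₀ hL] at h1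
  have h5 : p ≤ N := by
    have hN1 : (1 : ℝ) ≤ N := by
      by_contra hcon
      have := Real.log_nonpos h.pos.le (not_le.1 hcon).le
      linarith
    have h6 : (N : ℝ) ^ b ≤ (N : ℝ) ^ (1 : ℝ) := Real.rpow_le_rpow_of_exponent_le hN1 hb
    rw [Real.rpow_one] at h6
    exact_mod_cast h3.trans h6
  unfold PE
  rw [mem_filter, mem_Icc]
  exact ⟨⟨hpp.one_lt.le, h5⟩, hpp, h4, h3⟩

/-- the innermost sum -/
private noncomputable def SumC_R (N p q : ℕ) : ℝ :=
  ∑ r ∈ (PE N (111 / 500) (3 / 10)).filter (fun r => q ≤ r ∧ p * q * r ^ 2 ≤ 16 * N), (1 : ℝ) / r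

/-- facts about `p, q, r` -/
private theorem SumC_pqr {N p q r : ℕ} (h : SumC_ok N) (hp : (0 : ℝ) < p) (hq : (0 : ℝ) < q)
    (hr : r ∈ (PE N (111 / 500) (3 / 10)).filter (fun r => q ≤ r ∧ p * q * r ^ 2 ≤ 16 * N)) :
    r.Prime ∧ (0 : ℝ) < r ∧ Real.log q / Real.log N ≤ Real.log r / Real.log N ∧
      Real.log p / Real.log N + Real.log q / Real.log N + 2 * (Real.log r / Real.log N) ≤
        10001 / 10000 := by
  have hL : 0 < Real.log N := by linarith [h.big]
  rw [mem_filter] at hr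
  obtain ⟨hr1, hr2, hr3⟩ := hr
  obtain ⟨hrp, hr0, -, -⟩ := SumC_mem h hr1
  have hqr : (q : ℝ) ≤ r := by exact_mod_cast hr2
  refine ⟨hrp, hr0, div_le_div_of_nonneg_right (Real.log_le_log hq hqr) hL.le, ?_⟩
  have h5 : (p : ℝ) * q * (r : ℝ) ^ 2 ≤ 16 * N := by exact_mod_cast hr3
  have h6 : Real.log ((p : ℝ) * q * (r : ℝ) ^ 2) ≤ Real.log (16 * N) :=
    Real.log_le_log (by positivity) h5
  rw [Real.log_mul (by positivity) (by positivity), Real.log_mul hp.ne' hq.ne', Real.log_pow,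
    Real.log_mul (by norm_num) h.pos.ne'] at h6
  push_cast at h6
  have h7 : Real.log p / Real.log N + Real.log q / Real.log N + 2 * (Real.log r / Real.log N) =
      (Real.log p + Real.log q + 2 * Real.log r) / Real.log N := by ring
  rw [h7, div_le_iff₀ hL]
  have := SumC_log16
  linarith [h.big]

private theorem SumC_R_le {N p q : ℕ} (h : SumC_ok N) (hp : p ∈ PE N (111 / 500) (3 / 10))
    (hq : q ∈ PE N (111 / 500) (3 / 10)) :
    (Real.log p / Real.log N + 3 * (Real.log q / Real.log N) ≤ 10001 / 10000 →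
      2219 / 10000 * SumC_R N p q ≤
        (1000302 / 1000000 - Real.log p / Real.log N - 3 * (Real.log q / Real.log N)) / 2) ∧
    (10001 / 10000 < Real.log p / Real.log N + 3 * (Real.log q / Real.log N) →
      SumC_R N p q = 0) := by
  obtain ⟨hpp, hp0, hp1, hp2⟩ := SumC_mem h hp
  obtain ⟨hqp, hq0, hq1, hq2⟩ := SumC_mem h hq
  obtain ⟨t1, ht1⟩ : ∃ t, t = Real.log p / Real.log N := ⟨_, rfl⟩
  obtain ⟨t2, ht2⟩ : ∃ t, t = Real.log q / Real.log N := ⟨_, rfl⟩
  rw [← ht1] at hp1 hp2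
  rw [← ht2] at hq1 hq2
  rw [← ht1, ← ht2]
  constructor
  · intro hle
    have hS := h.sum (t2 - 1 / 10000) ((10001 / 10000 - t1 - t2) / 2) (fun _ => 1) (by linarith)
      (by linarith) (by linarith) (fun u _ => ⟨zero_le_one, by norm_num⟩)
      (fun u _ v _ => by
        show |(1 : ℝ) - 1| ≤ _
        rw [sub_self, abs_zero]
        positivity)
    have hI : (∫ _u in (t2 - 1 / 10000)..((10001 / 10000 - t1 - t2) / 2), (1 : ℝ)) =
        (10001 / 10000 - t1 - t2) / 2 - (t2 - 1 / 10000) := by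
      rw [intervalIntegral.integral_const, smul_eq_mul, mul_one]
    rw [hI] at hS
    have hsub : SumC_R N p q ≤ ∑ r ∈ PE N (t2 - 1 / 10000) ((10001 / 10000 - t1 - t2) / 2),
        (fun _ : ℝ => (1 : ℝ)) (Real.log r / Real.log N) / r := by
      unfold SumC_R
      refine sum_le_sum_of_subset_of_nonneg ?_ fun r _ _ => by positivity
      intro r hr
      obtain ⟨hrp, hr0, h1, h2⟩ := SumC_pqr h hp0 hq0 hr
      rw [← ht2] at h1 h2
      rw [← ht1] at h2
      exact SumC_mem' h hrp (by linarith) (by linarith) (by linarith)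
    linarith
  · intro hlt
    unfold SumC_R
    refine sum_eq_zero fun r hr => ?_
    exfalso
    obtain ⟨hrp, hr0, h1, h2⟩ := SumC_pqr h hp0 hq0 hr
    rw [← ht2] at h1 h2
    rw [← ht1] at h2
    linarith

private theorem SumC_R_nonneg (N p q : ℕ) : 0 ≤ SumC_R N p q := by
  unfold SumC_R
  exact sum_nonneg fun r _ => by positivity

/-- the middle sum -/
private noncomputable def SumC_Q (N p : ℕ) : ℝ :=
  ∑ q ∈ (PE N (111 / 500) (3 / 10)).filter (fun q => p ≤ q), (1 : ℝ) / q * SumC_R N p q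

private theorem SumC_Q_le {N p : ℕ} (h : SumC_ok N) (hp : p ∈ PE N (111 / 500) (3 / 10)) :
    (4 * (Real.log p / Real.log N) ≤ 10001 / 10000 →
      2219 / 10000 * (2219 / 10000 * SumC_Q N p) ≤
        ((1000602 / 1000000 - 4 * (Real.log p / Real.log N)) ^ 2 / 6 + 1 / 1000000) / 2) ∧
    (10001 / 10000 < 4 * (Real.log p / Real.log N) → SumC_Q N p = 0) := by
  obtain ⟨hpp, hp0, hp1, hp2⟩ := SumC_mem h hp
  have hL : 0 < Real.log N := by linarith [h.big]
  obtain ⟨t1, ht1⟩ : ∃ t, t = Real.log p / Real.log N := ⟨_, rfl⟩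
  rw [← ht1] at hp1 hp2
  rw [← ht1]
  have hq : ∀ q ∈ (PE N (111 / 500) (3 / 10)).filter (fun q => p ≤ q),
      q ∈ PE N (111 / 500) (3 / 10) ∧ q.Prime ∧ (0 : ℝ) < q ∧ t1 ≤ Real.log q / Real.log N := by
    intro q hq
    rw [mem_filter] at hq
    obtain ⟨hqp, hq0, -, -⟩ := SumC_mem h hq.1
    refine ⟨hq.1, hqp, hq0, ?_⟩
    rw [ht1]
    exact div_le_div_of_nonneg_right (Real.log_le_log hp0 (by exact_mod_cast hq.2)) hL.le
  constructor
  · intro hle
    have hS := h.sum (t1 - 1 / 10000) ((1000302 / 1000000 - t1) / 3)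
      (fun u => 1000302 / 1000000 - t1 - 3 * u) (by linarith)
      (by linarith) (by linarith) (fun u hu => ⟨by linarith [hu.2], by linarith [hu.1]⟩)
      (fun u _ v _ => by
        show |(1000302 / 1000000 - t1 - 3 * u) - (1000302 / 1000000 - t1 - 3 * v)| ≤ 10 * |u - v|
        rw [show (1000302 / 1000000 - t1 - 3 * u) - (1000302 / 1000000 - t1 - 3 * v) =
          -(3 * (u - v)) by ring, abs_neg, abs_mul, abs_of_pos (by norm_num : (0 : ℝ) < 3)]
        have := abs_nonneg (u - v)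
        linarith)
    rw [SumC_int1] at hS
    have hle2 : 2219 / 10000 * SumC_Q N p ≤
        (∑ q ∈ PE N (t1 - 1 / 10000) ((1000302 / 1000000 - t1) / 3),
          (fun u : ℝ => 1000302 / 1000000 - t1 - 3 * u) (Real.log q / Real.log N) / q) / 2 := by
      unfold SumC_Q
      rw [mul_sum, sum_div]
      have h1 : ∑ q ∈ (PE N (111 / 500) (3 / 10)).filter (fun q => p ≤ q),
          2219 / 10000 * ((1 : ℝ) / q * SumC_R N p q) ≤
          ∑ q ∈ ((PE N (111 / 500) (3 / 10)).filter (fun q => p ≤ q)).filter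
            (fun q : ℕ => t1 + 3 * (Real.log q / Real.log N) ≤ 10001 / 10000),
            (fun u : ℝ => 1000302 / 1000000 - t1 - 3 * u) (Real.log q / Real.log N) / (q : ℝ) / 2 := by
        conv_rhs => rw [sum_filter]
        refine sum_le_sum fun q hqm => ?_
        obtain ⟨hq1, hqp, hq0, hq2⟩ := hq q hqm
        have hR := SumC_R_le h hp hq1
        rw [← ht1] at hR
        split_ifs with hc
        · have h2 := hR.1 hc
          have h3 := div_le_div_of_nonneg_right h2 hq0.le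
          calc 2219 / 10000 * ((1 : ℝ) / q * SumC_R N p q)
              = 2219 / 10000 * SumC_R N p q / q := by ring
            _ ≤ _ := h3
            _ = _ := by ring
        · rw [hR.2 (not_le.1 hc), mul_zero, mul_zero]
      refine h1.trans (sum_le_sum_of_subset_of_nonneg ?_ ?_)
      · intro q hqm
        rw [mem_filter] at hqm
        obtain ⟨hq1, hqp, hq0, hq2⟩ := hq q hqm.1
        exact SumC_mem' h hqp (by linarith) (by linarith) (by linarith [hqm.2])
      · intro q hqm _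
        obtain ⟨hqp, hq0, hq1, hq2⟩ := SumC_mem h hqm
        refine div_nonneg (div_nonneg ?_ hq0.le) (by norm_num)
        show 0 ≤ 1000302 / 1000000 - t1 - 3 * (Real.log q / Real.log N)
        linarith
    have h3 := mul_le_mul_of_nonneg_left hle2 (by norm_num : (0 : ℝ) ≤ 2219 / 10000)
    refine h3.trans ?_
    rw [← mul_div_assoc]
    refine div_le_div_of_nonneg_right (hS.trans (le_of_eq ?_)) (by norm_num)
    ring
  · intro hlt
    unfold SumC_Q
    refine sum_eq_zero fun q hqm => ?_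
    obtain ⟨hq1, hqp, hq0, hq2⟩ := hq q hqm
    have hR := SumC_R_le h hp hq1
    rw [← ht1] at hR
    rw [hR.2 (by linarith), mul_zero]

private theorem SumC_P_le {N : ℕ} (h : SumC_ok N) :
    ∑ p ∈ PE N (111 / 500) (3 / 10), (1 : ℝ) / p * SumC_Q N p ≤ 95 / 100000 := by
  have hL : 0 < Real.log N := by linarith [h.big]
  have hS := h.sum (111 / 500) ((1000602 / 1000000) / 4)
    (fun u => (1000602 / 1000000 - 4 * u) ^ 2 + 6 / 1000000) (by norm_num)
    (by norm_num) (by norm_num) (fun u hu => ⟨by positivity, by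
      have h1 : 0 ≤ 1000602 / 1000000 - 4 * u := by linarith [hu.2]
      have h2 : 1000602 / 1000000 - 4 * u ≤ 1 := by linarith [hu.1]
      show (1000602 / 1000000 - 4 * u) ^ 2 + 6 / 1000000 ≤ 10
      nlinarith⟩)
    (fun u hu v hv => by
      show |((1000602 / 1000000 - 4 * u) ^ 2 + 6 / 1000000) -
        ((1000602 / 1000000 - 4 * v) ^ 2 + 6 / 1000000)| ≤ 10 * |u - v|
      rw [show ((1000602 / 1000000 - 4 * u) ^ 2 + 6 / 1000000) -
        ((1000602 / 1000000 - 4 * v) ^ 2 + 6 / 1000000) =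
          -(4 * ((1000602 / 1000000 - 4 * u) + (1000602 / 1000000 - 4 * v)) * (u - v)) by ring,
        abs_neg, abs_mul]
      refine mul_le_mul_of_nonneg_right ?_ (abs_nonneg _)
      have h1 : 0 ≤ 1000602 / 1000000 - 4 * u := by linarith [hu.2]
      have h2 : 1000602 / 1000000 - 4 * u ≤ 1 / 2 := by linarith [hu.1]
      have h3 : 0 ≤ 1000602 / 1000000 - 4 * v := by linarith [hv.2]
      have h4 : 1000602 / 1000000 - 4 * v ≤ 1 / 2 := by linarith [hv.1]
      rw [abs_of_nonneg (by linarith)]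
      linarith)
  rw [SumC_int2] at hS
  have hle : (2219 / 10000) * ((2219 / 10000) *
      ∑ p ∈ PE N (111 / 500) (3 / 10), (1 : ℝ) / p * SumC_Q N p) ≤
      (∑ p ∈ PE N (111 / 500) ((1000602 / 1000000) / 4),
        (fun u : ℝ => (1000602 / 1000000 - 4 * u) ^ 2 + 6 / 1000000)
          (Real.log p / Real.log N) / (p : ℝ)) / 12 := by
    rw [mul_sum, mul_sum, sum_div]
    have h1 : ∑ p ∈ PE N (111 / 500) (3 / 10),
        2219 / 10000 * (2219 / 10000 * ((1 : ℝ) / p * SumC_Q N p)) ≤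
        ∑ p ∈ (PE N (111 / 500) (3 / 10)).filter
          (fun p : ℕ => 4 * (Real.log p / Real.log N) ≤ 10001 / 10000),
          (fun u : ℝ => (1000602 / 1000000 - 4 * u) ^ 2 + 6 / 1000000)
            (Real.log p / Real.log N) / (p : ℝ) / 12 := by
      rw [sum_filter]
      refine sum_le_sum fun p hp => ?_
      obtain ⟨hpp, hp0, hp1, hp2⟩ := SumC_mem h hp
      have hR := SumC_Q_le h hp
      split_ifs with hc
      · have h2 := hR.1 hc
        have h3 := div_le_div_of_nonneg_right h2 hp0.le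
        calc 2219 / 10000 * (2219 / 10000 * ((1 : ℝ) / p * SumC_Q N p))
            = 2219 / 10000 * (2219 / 10000 * SumC_Q N p) / p := by ring
          _ ≤ _ := h3
          _ = _ := by ring
      · rw [hR.2 (not_le.1 hc), mul_zero, mul_zero, mul_zero]
    refine h1.trans (sum_le_sum_of_subset_of_nonneg ?_ ?_)
    · intro p hpm
      rw [mem_filter] at hpm
      obtain ⟨hpp, hp0, hp1, hp2⟩ := SumC_mem h hpm.1
      exact SumC_mem' h hpp (by norm_num) hp1 (by linarith [hpm.2])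
    · intro p hpm _
      obtain ⟨hpp, hp0, hp1, hp2⟩ := SumC_mem h hpm
      refine div_nonneg (div_nonneg ?_ hp0.le) (by norm_num)
      show 0 ≤ (1000602 / 1000000 - 4 * (Real.log p / Real.log N)) ^ 2 + 6 / 1000000
      positivity
  have hnum : ((1000602 / 1000000 : ℝ) - 4 * (111 / 500)) ^ 3 / 12 +
      6 / 1000000 * ((1000602 / 1000000) / 4 - 111 / 500) + 1 / 1000000 ≤
      12 * (2219 / 10000) ^ 3 * (95 / 100000) := by norm_num
  nlinarith

theorem s4_le : ∃ N0 : ℕ, ∀ N : ℕ, N0 ≤ N → ∀ x : ℕ, N ≤ 8 * x → x ≤ 8 * N →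
    ∑ p ∈ PE N (111 / 500) (3 / 10), ∑ q ∈ (PE N (111 / 500) (3 / 10)).filter (fun q => p ≤ q),
      ∑ r ∈ (PE N (111 / 500) (3 / 10)).filter (fun r => q ≤ r ∧ p * q * r ^ 2 ≤ 16 * N),
        1 / (p * q * r * Real.log ((x : ℝ) / (p * q * r))) ≤ (40 / 10000) / Real.log N := by
  obtain ⟨N0, hN0⟩ := SumC_ok_ex
  refine ⟨N0, fun N hN x hx1 _ => ?_⟩
  have h := hN0 N hN
  have hL : 0 < Real.log N := by linarith [h.big]
  have hNp := h.pos
  have hx1' : (N : ℝ) ≤ 8 * x := by exact_mod_cast hx1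
  have hx0 : (0 : ℝ) < x := by linarith
  have key : ∑ p ∈ PE N (111 / 500) (3 / 10), ∑ q ∈ (PE N (111 / 500) (3 / 10)).filter (fun q => p ≤ q),
      ∑ r ∈ (PE N (111 / 500) (3 / 10)).filter (fun r => q ≤ r ∧ p * q * r ^ 2 ≤ 16 * N),
        1 / (p * q * r * Real.log ((x : ℝ) / (p * q * r))) ≤
      (401 / 100) / Real.log N *
        ∑ p ∈ PE N (111 / 500) (3 / 10), (1 : ℝ) / p * SumC_Q N p := by
    rw [mul_sum]
    refine sum_le_sum fun p hp => ?_
    obtain ⟨hpp, hp0, hp1, hp2⟩ := SumC_mem h hp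
    unfold SumC_Q
    rw [mul_sum, mul_sum]
    refine sum_le_sum fun q hq => ?_
    rw [mem_filter] at hq
    obtain ⟨hqp, hq0, hq1, hq2⟩ := SumC_mem h hq.1
    unfold SumC_R
    rw [mul_sum, mul_sum, mul_sum]
    refine sum_le_sum fun r hr => ?_
    obtain ⟨hrp, hr0, hr1, hr2⟩ := SumC_pqr h hp0 hq0 hr
    have hpq : Real.log p / Real.log N ≤ Real.log q / Real.log N :=
      div_le_div_of_nonneg_right (Real.log_le_log hp0 (by exact_mod_cast hq.2)) hL.le
    have hsum : Real.log p / Real.log N + Real.log q / Real.log N + Real.log r / Real.log N ≤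
        30003 / 40000 := by linarith
    have hsum' : Real.log p + Real.log q + Real.log r ≤ 30003 / 40000 * Real.log N := by
      rw [← add_div, ← add_div, div_le_iff₀ hL] at hsum
      exact hsum
    have hlogx : Real.log N - Real.log 8 ≤ Real.log x := by
      have h1 : Real.log N ≤ Real.log (8 * x) := Real.log_le_log hNp hx1'
      rw [Real.log_mul (by norm_num) hx0.ne'] at h1
      linarith
    have hlog : Real.log ((x : ℝ) / (p * q * r)) =
        Real.log x - (Real.log p + Real.log q + Real.log r) := by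
      rw [Real.log_div hx0.ne' (by positivity), Real.log_mul (by positivity) hr0.ne',
        Real.log_mul hp0.ne' hq0.ne']
    have h8 := SumC_log8
    have hbig := h.big
    have hlow : 100 / 401 * Real.log N ≤ Real.log ((x : ℝ) / (p * q * r)) := by
      rw [hlog]
      linarith
    have hpos : 0 < 100 / 401 * Real.log N := by positivity
    have hpos2 : 0 < Real.log ((x : ℝ) / (p * q * r)) := lt_of_lt_of_le hpos hlow
    have h3 : 1 / Real.log ((x : ℝ) / (p * q * r)) ≤ 1 / (100 / 401 * Real.log N) :=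
      one_div_le_one_div_of_le hpos hlow
    have h4 : (1 : ℝ) / (100 / 401 * Real.log N) = (401 / 100) / Real.log N := by
      field_simp
    rw [h4] at h3
    have h5 : (0 : ℝ) ≤ 1 / p * (1 / q * (1 / r)) := by positivity
    calc 1 / (p * q * r * Real.log ((x : ℝ) / (p * q * r)))
        = 1 / Real.log ((x : ℝ) / (p * q * r)) * (1 / p * (1 / q * (1 / r))) := by
          field_simp
      _ ≤ (401 / 100) / Real.log N * (1 / p * (1 / q * (1 / r))) :=
          mul_le_mul_of_nonneg_right h3 h5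
  refine key.trans ?_
  have h1 := SumC_P_le h
  have h2 : (401 / 100) / Real.log N *
        ∑ p ∈ PE N (111 / 500) (3 / 10), (1 : ℝ) / p * SumC_Q N p ≤
        (401 / 100) / Real.log N * (95 / 100000) :=
    mul_le_mul_of_nonneg_left h1 (by positivity)
  refine h2.trans ?_
  rw [div_mul_eq_mul_div]
  exact div_le_div_of_nonneg_right (by norm_num) hL.le

end Pool.Agent.H9.TM
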