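import Pool.Agent.H9.TM.Cls
import Pool.Agent.H76.TP.ZCnt

/-!
# TM Zero: the primes and the composite numbers without small primes

* `pr_int`: `∑_{(x,x+l]} Λ = l + O(x/L^(K+2))` (`psi_ap` of `H91/EHA` with modulus 1, used in `H76/TP/PntI.lean`; `psiA`, `PntI_psi`), the proper prime powers are `≤ 2 √(16N) · log`-many, `log m = L + O(1)` on `(x, x+l]`.  (`x/L^K ≤ l`.)
* `zero_le`: the numbers `rou z m`, `omz z z1 m = 0` have all prime factors `> z1 ≥ N^(3053/10000)`, and the primes `m ≥ N/8 > z1` too: `#composite + #primes ≤ (1 + Z2 b' + Z3 b' + ε) l/L` (`zcount (3053/10000)`), `#primes ≥ (1 - ε) l/L`.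
  Numerics: `Z2 b' = log(6947/3053) ≤ 0.8222`, `Z3 b' = ∫_{b'}^{1/3} log((1-2u)/u)/(u(1-u)) du`: `log t ≤ (t - 1/t)/2` (`t ≥ 1`), `t = (1-2u)/u`: integrand `≤ (1-3u)/(2u²(1-2u)) ≤ 1.1551 (1/3 - u)/(1/3 - b')`
  (chord from `u = b'`, value `1.15502..`; `(1-3u)` is linear and `u²(1-2u)` is increasing on `[b', 1/3]`, so the quotient by `(1/3 - u)` is at most its value at `b'`), `Z3 b' ≤ 1.1551 (1/3 - b')/2 ≤ 0.01619`.  Sum `≤ 0.8384`.
-/

set_option autoImplicit false

namespace Pool.Agent.H9.TM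

open Finset MeasureTheory
open Pool.Agent.H76.TP

/-- `log t ≤ (t - 1/t)/2` for `t ≥ 1` -/
private theorem Zero_log {t : ℝ} (ht : 1 ≤ t) : Real.log t ≤ (t - t⁻¹) / 2 := by
  have h := Real.self_le_sinh_iff.2 (Real.log_nonneg ht)
  rwa [Real.sinh_log (by linarith)] at h

private theorem Zero_Z2 : Z2 (3053 / 10000) ≤ 8224 / 10000 := by
  unfold Z2
  have h1 : ((1 : ℝ) - 3053 / 10000) / (3053 / 10000) ≤ 2 * (1.06665 * 1.06665) := by norm_num
  have h2 : Real.log (((1 : ℝ) - 3053 / 10000) / (3053 / 10000)) ≤ Real.log (2 * (1.06665 * 1.06665)) :=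
    Real.log_le_log (by norm_num) h1
  rw [Real.log_mul (by norm_num) (by norm_num), Real.log_mul (by norm_num) (by norm_num)] at h2
  have h3 := Zero_log (t := 1.06665) (by norm_num)
  have h4 := Real.log_two_lt_d9
  norm_num at h3 h4 ⊢
  norm_num at h2
  linarith

private theorem Zero_Z3 : Z3 (3053 / 10000) ≤ 163 / 10000 := by
  have hb : ∀ u ∈ Set.Icc (3053 / 10000 : ℝ) (1 / 3), Real.log ((1 - 2 * u) / u) / (u * (1 - u)) ≤
      4133 / 100 * (1 / 3 - u) := by
    intro u hu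
    obtain ⟨hu1, hu2⟩ := hu
    have hu0 : 0 < u := by linarith
    have h1u : 0 < 1 - u := by linarith
    have h2u : 0 < 1 - 2 * u := by linarith
    have ht : 1 ≤ (1 - 2 * u) / u := by
      rw [le_div_iff₀ hu0]
      linarith
    have h1 := Zero_log ht
    have h2 : ((1 - 2 * u) / u - ((1 - 2 * u) / u)⁻¹) / 2 =
        3 * (1 / 3 - u) * (1 - u) / (2 * (u * (1 - 2 * u))) := by
      field_simp
      ring
    rw [h2] at h1
    rw [div_le_iff₀ (mul_pos hu0 h1u)]
    refine h1.trans ?_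
    rw [div_le_iff₀ (by positivity)]
    have h3 : (3 : ℝ) ≤ 4133 / 100 * (2 * (u ^ 2 * (1 - 2 * u))) := by
      have h4 : (3053 / 10000 : ℝ) ^ 2 * (1 - 2 * (3053 / 10000)) ≤ u ^ 2 * (1 - 2 * u) := by
        nlinarith [mul_nonneg (sub_nonneg.2 hu1) (sub_nonneg.2 hu2), mul_nonneg hu0.le (sub_nonneg.2 hu2),
          mul_nonneg (mul_nonneg (sub_nonneg.2 hu1) hu0.le) (sub_nonneg.2 hu2)]
      have h5 : (3 : ℝ) ≤ 4133 / 100 * (2 * ((3053 / 10000 : ℝ) ^ 2 * (1 - 2 * (3053 / 10000)))) := by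
        norm_num
      linarith
    have h6 : 0 ≤ (1 / 3 - u) * (1 - u) := mul_nonneg (by linarith) h1u.le
    have h7 := mul_le_mul_of_nonneg_right h3 h6
    linarith
  have hab : (3053 / 10000 : ℝ) ≤ 1 / 3 := by norm_num
  have hc : ContinuousOn (fun u : ℝ => Real.log ((1 - 2 * u) / u) / (u * (1 - u)))
      (Set.uIcc (3053 / 10000 : ℝ) (1 / 3)) := by
    rw [Set.uIcc_of_le hab]
    intro u hu
    obtain ⟨hu1, hu2⟩ := hu
    have hu0 : u ≠ 0 := by
      have : 0 < u := by linarith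
      exact this.ne'
    have h1u : 1 - u ≠ 0 := by
      have : 0 < 1 - u := by linarith
      exact this.ne'
    have h2u : (1 - 2 * u) / u ≠ 0 := by
      have : 0 < (1 - 2 * u) / u := div_pos (by linarith) (by linarith)
      exact this.ne'
    apply ContinuousAt.continuousWithinAt
    have hA : ContinuousAt (fun u : ℝ => (1 - 2 * u) / u) u :=
      ContinuousAt.div (by fun_prop) (by fun_prop) hu0
    exact ContinuousAt.div (ContinuousAt.log hA h2u) (by fun_prop) (mul_ne_zero hu0 h1u)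
  have h1 : Z3 (3053 / 10000) ≤ ∫ u in (3053 / 10000 : ℝ)..(1 / 3 : ℝ), 4133 / 100 * (1 / 3 - u) := by
    unfold Z3
    exact intervalIntegral.integral_mono_on hab hc.intervalIntegrable
      (Continuous.intervalIntegrable (by fun_prop) _ _) hb
  refine h1.trans ?_
  rw [intervalIntegral.integral_const_mul, intervalIntegral.integral_sub (by simp) (by simp)]
  simp only [intervalIntegral.integral_const, integral_id, smul_eq_mul]
  norm_num

/-- The sum over the interval is a difference of `psiA`. -/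
private theorem Zero_psi (X1 X2 : ℕ) (h : X1 ≤ X2) :
    ∑ n ∈ Ioc X1 X2, Pool.Agent.H91.EHA.Lam n = Pool.Agent.H91.EHA.psiA X2 1 0 - Pool.Agent.H91.EHA.psiA X1 1 0 := by
  have hf : ∀ X : ℕ, Pool.Agent.H91.EHA.psiA X 1 0 = ∑ n ∈ Icc 1 X, Pool.Agent.H91.EHA.Lam n := by
    intro X
    unfold Pool.Agent.H91.EHA.psiA
    rw [filter_true_of_mem]
    intro n _
    exact Nat.modEq_one
  rw [hf, hf]
  have hu : Icc 1 X2 = Icc 1 X1 ∪ Ioc X1 X2 := by
    ext n
    simp only [mem_Icc, mem_union, mem_Ioc]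
    omega
  have hdj : Disjoint (Icc 1 X1) (Ioc X1 X2) := by
    rw [disjoint_left]
    intro n h1 h2
    rw [mem_Icc] at h1
    rw [mem_Ioc] at h2
    omega
  rw [hu, sum_union hdj]
  ring

/-- the sum of `Λ` over the interval: primes and proper prime powers -/
private theorem Zero_sum (x l N : ℕ) (hN : 1 ≤ N) (hxl : x + l ≤ 16 * N) :
    ∑ n ∈ Ioc x (x + l), Pool.Agent.H91.EHA.Lam n ≤
      (((Ioc x (x + l)).filter Nat.Prime).card : ℝ) * Real.log (16 * N) +
        2 * √(16 * N) * Real.log (16 * N) := by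
  have hNR : (1 : ℝ) ≤ 16 * N := by
    have : (1 : ℝ) ≤ N := by exact_mod_cast hN
    linarith
  have hfl : ⌊(16 * N : ℝ)⌋₊ = 16 * N := by
    have : (16 * N : ℝ) = ((16 * N : ℕ) : ℝ) := by push_cast; ring
    rw [this, Nat.floor_natCast]
  have h1 := Chebyshev.psi_sub_theta_le hNR
  rw [Chebyshev.psi_sub_theta_eq_sum_not_prime, hfl] at h1
  rw [← sum_filter_add_sum_filter_not (Ioc x (x + l)) Nat.Prime]
  refine add_le_add ?_ ?_
  · rw [← nsmul_eq_mul]
    refine sum_le_card_nsmul _ _ _ fun p hp => ?_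
    rw [mem_filter, mem_Ioc] at hp
    have hl : Pool.Agent.H91.EHA.Lam p = Real.log p := ArithmeticFunction.vonMangoldt_apply_prime hp.2
    rw [hl]
    refine Real.log_le_log (by exact_mod_cast hp.2.pos) ?_
    exact_mod_cast hp.1.2.trans hxl
  · refine le_trans ?_ h1
    refine sum_le_sum_of_subset_of_nonneg ?_ (fun _ _ _ => ArithmeticFunction.vonMangoldt_nonneg)
    intro n hn
    rw [mem_filter, mem_Ioc] at hn ⊢
    exact ⟨⟨by omega, by omega⟩, hn.2⟩

theorem pr_int (K : ℕ) (ε : ℝ) (hε : 0 < ε) : ∃ N0 : ℕ, ∀ N : ℕ, N0 ≤ N → ∀ x l : ℕ, N ≤ 8 * x → x ≤ 8 * N →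
    (x : ℝ) / Real.log N ^ K ≤ l → l ≤ x →
      |(((Ioc x (x + l)).filter Nat.Prime).card : ℝ) - l / Real.log N| ≤ ε * l / Real.log N := by
  obtain ⟨δ, hδ0, hδ1, hδ⟩ : ∃ δ : ℝ, 0 < δ ∧ δ ≤ 1 ∧ 3 * δ ≤ ε := by
    refine ⟨min 1 (ε / 3), lt_min one_pos (by positivity), min_le_left _ _, ?_⟩
    have := min_le_right (1 : ℝ) (ε / 3)
    linarith
  obtain ⟨N1, hN1⟩ := pnt_int K δ (1 / 2) hδ0 (by norm_num)
  obtain ⟨x0, hx0⟩ := Pool.Agent.H91.EHA.psi_ap 0 (K + 2)
  have hcast : Filter.Tendsto (fun N : ℕ => (N : ℝ)) Filter.atTop Filter.atTop :=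
    tendsto_natCast_atTop_atTop
  have hlog : Filter.Tendsto (fun N : ℕ => Real.log (N : ℝ)) Filter.atTop Filter.atTop :=
    Real.tendsto_log_atTop.comp hcast
  have E1 : ∀ᶠ N : ℕ in Filter.atTop, (8 : ℝ) ≤ (N : ℝ) ^ (1 / 2 : ℝ) :=
    ((tendsto_rpow_atTop (by norm_num)).comp hcast).eventually_ge_atTop _
  have E2 : ∀ᶠ N : ℕ in Filter.atTop, (1 + δ) * Real.log 8 / δ + Real.log 16 / δ + 1 +
      4 * 2 ^ (K + 2) / δ ≤ Real.log N := hlog.eventually_ge_atTop _
  have E3 : ∀ᶠ N : ℕ in Filter.atTop, Real.log N ^ (K + 1) ≤ δ / 128 * (N : ℝ) ^ (1 / 2 : ℝ) := by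
    have h := hcast.eventually ((isLittleO_log_rpow_rpow_atTop ((K + 1 : ℕ) : ℝ)
      (by norm_num : (0 : ℝ) < 1 / 2)).def (show 0 < δ / 128 by positivity))
    filter_upwards [h, hlog.eventually_ge_atTop 0] with N h1 h2
    rw [Real.norm_of_nonneg (Real.rpow_nonneg h2 _), Real.norm_of_nonneg
      (Real.rpow_nonneg (Nat.cast_nonneg N) _), Real.rpow_natCast] at h1
    exact h1
  have E4 : ∀ᶠ N : ℕ in Filter.atTop, N1 ≤ N ∧ 8 * x0 ≤ N ∧ 8 ≤ N := by
    filter_upwards [Filter.eventually_ge_atTop (N1 + 8 * x0 + 8)] with N hN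
    omega
  obtain ⟨N0, hN0⟩ := Filter.eventually_atTop.1 (E1.and (E2.and (E3.and E4)))
  refine ⟨N0, fun N hN x l hx8 hx hl hlx => ?_⟩
  obtain ⟨e1, e2, e3, n1, n2, n8⟩ := hN0 N hN
  have hNpos : (0 : ℝ) < N := by exact_mod_cast (by omega : 0 < N)
  have hx1 : 1 ≤ x := by omega
  have hxpos : (0 : ℝ) < x := by exact_mod_cast hx1
  have hx8R : (N : ℝ) ≤ 8 * x := by exact_mod_cast hx8
  have hxR : (x : ℝ) ≤ 8 * N := by exact_mod_cast hx
  have hlR : (l : ℝ) ≤ x := by exact_mod_cast hlx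
  have hl8 : (0 : ℝ) < Real.log 8 := Real.log_pos (by norm_num)
  have hl16 : (0 : ℝ) < Real.log 16 := Real.log_pos (by norm_num)
  have q1 : (0 : ℝ) < (1 + δ) * Real.log 8 / δ := by positivity
  have q2 : (0 : ℝ) < Real.log 16 / δ := by positivity
  have q3 : (0 : ℝ) < 4 * 2 ^ (K + 2) / δ := by positivity
  have hL1 : 1 ≤ Real.log N := by linarith
  have hLpos : 0 < Real.log N := by linarith
  have hL8 : (1 + δ) * Real.log 8 ≤ δ * Real.log N := by
    have : (1 + δ) * Real.log 8 / δ ≤ Real.log N := by linarith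
    rw [div_le_iff₀ hδ0] at this
    linarith
  have hL16 : Real.log 16 ≤ δ * Real.log N := by
    have : Real.log 16 / δ ≤ Real.log N := by linarith
    rw [div_le_iff₀ hδ0] at this
    linarith
  have hL2 : 4 * 2 ^ (K + 2) ≤ δ * Real.log N ^ 2 := by
    have : 4 * 2 ^ (K + 2) / δ ≤ Real.log N := by linarith
    rw [div_le_iff₀ hδ0] at this
    have h9 := mul_le_mul_of_nonneg_left hL1 (mul_nonneg hδ0.le hLpos.le)
    have h10 : δ * Real.log N * Real.log N = δ * Real.log N ^ 2 := by ring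
    linarith
  have hl0 : (0 : ℝ) ≤ l := Nat.cast_nonneg l
  have hhalf : (N : ℝ) = (N : ℝ) ^ (1 / 2 : ℝ) * (N : ℝ) ^ (1 / 2 : ℝ) := by
    rw [← Real.rpow_add hNpos]
    norm_num
  have hxhalf : (N : ℝ) ^ (1 / 2 : ℝ) ≤ x := by
    have h9 := mul_le_mul_of_nonneg_right e1 (by positivity : 0 ≤ (N : ℝ) ^ (1 / 2 : ℝ))
    rw [← hhalf] at h9
    linarith
  have hlL : 0 ≤ (l : ℝ) / Real.log N := by positivity
  -- upper bound
  have B1 : (((Ioc x (x + l)).filter Nat.Prime).card : ℝ) ≤ (1 + δ) ^ 2 * l / Real.log N := by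
    have h1 := hN1 N n1 x l 1 le_rfl (by rw [Nat.cast_one, mul_one]; exact hxhalf)
      (hx.trans ((Nat.mul_le_mul_right N n8).trans (sq N).ge)) hl hlx
    rw [Nat.div_one, Nat.div_one, Nat.cast_one, one_mul, div_one] at h1
    refine h1.trans ?_
    have h2 : Real.log N ≤ (1 + δ) * Real.log x := by
      have h3 : Real.log N - Real.log 8 ≤ Real.log x := by
        rw [← Real.log_div hNpos.ne' (by norm_num)]
        refine Real.log_le_log (by positivity) ?_
        rw [div_le_iff₀ (by norm_num)]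
        linarith
      have h9 := mul_le_mul_of_nonneg_left h3 (by positivity : 0 ≤ 1 + δ)
      linarith
    have h3 : 0 < Real.log x := by
      by_contra h3
      push Not at h3
      have h9 := mul_nonpos_of_nonneg_of_nonpos (by positivity : 0 ≤ 1 + δ) h3
      linarith
    rw [div_le_div_iff₀ h3 hLpos]
    have h4 : 0 ≤ (1 + δ) * l := by positivity
    refine (mul_le_mul_of_nonneg_left h2 h4).trans (le_of_eq ?_)
    ring
  -- lower bound
  have B2 : (1 - 3 * δ) * l / Real.log N ≤ (((Ioc x (x + l)).filter Nat.Prime).card : ℝ) := by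
    have hX0 : x0 ≤ x + l := by omega
    have hA := hx0 (x + l) hX0 (x + l) le_rfl 1 le_rfl (by simp) 0 (Nat.coprime_one_right 0)
    have hB := hx0 (x + l) hX0 x (by omega) 1 le_rfl (by simp) 0 (Nat.coprime_one_right 0)
    rw [Nat.totient_one, Nat.cast_one, div_one] at hA hB
    have hA' := (abs_le.mp hA).1
    have hB' := (abs_le.mp hB).2
    have hS := Zero_sum x l N (by omega) (by omega)
    rw [Zero_psi x (x + l) (by omega)] at hS
    have hXR : ((x + l : ℕ) : ℝ) = x + l := by push_cast; ring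
    have hlogX : Real.log N / 2 ≤ Real.log ((x + l : ℕ) : ℝ) := by
      have h1 : Real.log ((N : ℝ) ^ (1 / 2 : ℝ)) ≤ Real.log ((x + l : ℕ) : ℝ) := by
        refine Real.log_le_log (by positivity) ?_
        rw [hXR]
        linarith
      rw [Real.log_rpow hNpos] at h1
      linarith
    have herr : ((x + l : ℕ) : ℝ) / Real.log ((x + l : ℕ) : ℝ) ^ (K + 2) ≤
        2 * x / (Real.log N / 2) ^ (K + 2) := by
      refine div_le_div₀ (by positivity) (by rw [hXR]; linarith) (by positivity) ?_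
      exact pow_le_pow_left₀ (by positivity) hlogX _
    have hLK : 0 < Real.log N ^ K := by positivity
    have hxl : (x : ℝ) ≤ l * Real.log N ^ K := by
      rw [div_le_iff₀ hLK] at hl
      exact hl
    have herr2 : 2 * (2 * x / (Real.log N / 2) ^ (K + 2)) ≤ δ * l := by
      have hb1 : 2 * (2 * x / (Real.log N / 2) ^ (K + 2)) =
          4 * 2 ^ (K + 2) * x / (Real.log N ^ K * Real.log N ^ 2) := by
        rw [div_pow, pow_add (Real.log N) K 2]
        field_simp
        ring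
      rw [hb1, div_le_iff₀ (by positivity)]
      have hb2 : 4 * 2 ^ (K + 2) * (x : ℝ) ≤ (δ * Real.log N ^ 2) * (l * Real.log N ^ K) :=
        mul_le_mul hL2 hxl (by positivity) (by positivity)
      refine hb2.trans (le_of_eq ?_)
      ring
    -- prime powers
    have hlog16 : Real.log (16 * N) ≤ (1 + δ) * Real.log N := by
      rw [Real.log_mul (by norm_num) hNpos.ne']
      linarith
    have hlog16' : 0 < Real.log (16 * N) := by
      rw [Real.log_mul (by norm_num) hNpos.ne']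
      linarith
    have hsq : √(16 * N) = 4 * (N : ℝ) ^ (1 / 2 : ℝ) := by
      rw [Real.sqrt_mul (by norm_num), ← Real.sqrt_eq_rpow]
      have : √(16 : ℝ) = 4 := by
        rw [show (16 : ℝ) = 4 ^ 2 by norm_num]
        exact Real.sqrt_sq (by norm_num)
      rw [this]
    have hpp : 2 * √(16 * N) * Real.log (16 * N) ≤ δ * l := by
      rw [hsq]
      obtain ⟨a, ha⟩ : ∃ a : ℝ, a = (N : ℝ) ^ (1 / 2 : ℝ) := ⟨_, rfl⟩
      rw [← ha] at e1 e3 hhalf ⊢
      have ha0 : 0 < a := by linarith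
      -- 8 a (1+δ) L ≤ 16 a L, and L^(K+1) ≤ δ/128 a
      have h1 : 2 * (4 * a) * Real.log (16 * N) ≤ 16 * a * Real.log N := by
        have h2 : Real.log (16 * N) ≤ 2 * Real.log N := by
          have h9 := mul_le_mul_of_nonneg_right hδ1 hLpos.le
          linarith
        have h10 := mul_le_mul_of_nonneg_left h2 ha0.le
        linarith
      refine h1.trans ?_
      -- l ≥ x / L^K ≥ a^2 / (8 L^K)
      have h3 : 16 * a * Real.log N * Real.log N ^ K ≤ δ * l * Real.log N ^ K := by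
        have h4 : 16 * a * Real.log N * Real.log N ^ K = 16 * a * Real.log N ^ (K + 1) := by ring
        rw [h4]
        have h5 : 16 * a * Real.log N ^ (K + 1) ≤ 16 * a * (δ / 128 * a) :=
          mul_le_mul_of_nonneg_left e3 (by positivity)
        have h6 : δ * (x : ℝ) ≤ δ * (l * Real.log N ^ K) := mul_le_mul_of_nonneg_left hxl hδ0.le
        have h7 : δ * (N : ℝ) ≤ δ * (8 * x) := mul_le_mul_of_nonneg_left hx8R hδ0.le
        rw [hhalf] at h7
        linarith
      exact le_of_mul_le_mul_right h3 hLK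
    have hmain : (1 - 2 * δ) * l ≤ (((Ioc x (x + l)).filter Nat.Prime).card : ℝ) * Real.log (16 * N) := by
      rw [hXR] at hA' hB'
      rw [hXR] at herr
      linarith
    have hc0 : (0 : ℝ) ≤ (((Ioc x (x + l)).filter Nat.Prime).card : ℝ) := Nat.cast_nonneg _
    rw [div_le_iff₀ hLpos]
    have h1 : (1 - 2 * δ) * l ≤ (1 + δ) * ((((Ioc x (x + l)).filter Nat.Prime).card : ℝ) * Real.log N) := by
      refine hmain.trans ?_
      have := mul_le_mul_of_nonneg_left hlog16 hc0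
      linarith
    have h2 : (1 + δ) * ((1 - 3 * δ) * l) ≤ (1 - 2 * δ) * l := by linarith [mul_nonneg hl0 (mul_nonneg hδ0.le hδ0.le)]
    have h3 : (1 + δ) * ((1 - 3 * δ) * l) ≤ (1 + δ) * ((((Ioc x (x + l)).filter Nat.Prime).card : ℝ) * Real.log N) :=
      h2.trans h1
    exact le_of_mul_le_mul_left h3 (by linarith)
  rw [abs_le]
  constructor
  · have h1 : (1 - ε) * (l / Real.log N) ≤ (1 - 3 * δ) * (l / Real.log N) :=
      mul_le_mul_of_nonneg_right (by linarith) hlL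
    have h2 : (1 - 3 * δ) * l / Real.log N = (1 - 3 * δ) * (l / Real.log N) := by ring
    have h3 : ε * l / Real.log N = ε * (l / Real.log N) := by ring
    rw [h2] at B2
    rw [h3]
    linarith
  · have h0 : (1 + δ) ^ 2 ≤ 1 + ε := by
      have h9 := mul_le_mul_of_nonneg_left hδ1 hδ0.le
      have h10 : (1 + δ) ^ 2 = 1 + 2 * δ + δ * δ := by ring
      linarith
    have h1 : (1 + δ) ^ 2 * (l / Real.log N) ≤ (1 + ε) * (l / Real.log N) :=
      mul_le_mul_of_nonneg_right h0 hlL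
    have h2 : (1 + δ) ^ 2 * l / Real.log N = (1 + δ) ^ 2 * (l / Real.log N) := by ring
    have h3 : ε * l / Real.log N = ε * (l / Real.log N) := by ring
    rw [h2] at B1
    rw [h3]
    linarith

open Classical in
theorem zero_le (K : ℕ) : ∃ N0 : ℕ, ∀ N : ℕ, N0 ≤ N → ∀ z z1 x l : ℕ, (N : ℝ) ^ (111 / 500 : ℝ) ≤ z → z ≤ z1 →
    (N : ℝ) ^ (3053 / 10000 : ℝ) ≤ z1 → (z1 : ℝ) ≤ (N : ℝ) ^ (1527 / 5000 : ℝ) → N ≤ 8 * x → x ≤ 8 * N →
    (x : ℝ) / Real.log N ^ K ≤ l → l ≤ x →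
      (((Ioc x (x + l)).filter (fun m => ¬ m.Prime ∧ rou z m ∧ omz z z1 m = 0)).card : ℝ) ≤ (8388 / 10000) * l / Real.log N := by
  obtain ⟨N1, hN1⟩ := pr_int K (1 / 200000) (by norm_num)
  obtain ⟨N2, hN2⟩ := zcount (3053 / 10000) (1 / 200000) (by norm_num) (by norm_num) (by norm_num) K
  have hcast : Filter.Tendsto (fun N : ℕ => (N : ℝ)) Filter.atTop Filter.atTop :=
    tendsto_natCast_atTop_atTop
  have E1 : ∀ᶠ N : ℕ in Filter.atTop, (8 : ℝ) ≤ (N : ℝ) ^ (6947 / 10000 : ℝ) :=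
    ((tendsto_rpow_atTop (by norm_num)).comp hcast).eventually_ge_atTop _
  have E4 : ∀ᶠ N : ℕ in Filter.atTop, N1 ≤ N ∧ N2 ≤ N ∧ 8 ≤ N := by
    filter_upwards [Filter.eventually_ge_atTop (N1 + N2 + 8)] with N hN
    omega
  obtain ⟨N0, hN0⟩ := Filter.eventually_atTop.1 (E1.and E4)
  refine ⟨N0, fun N hN z z1 x l hz hzz hz1 hz1' hx8 hx hl hlx => ?_⟩
  obtain ⟨e1, n1, n2, n8⟩ := hN0 N hN
  have hNpos : (0 : ℝ) < N := by exact_mod_cast (by omega : 0 < N)
  have hx8R : (N : ℝ) ≤ 8 * x := by exact_mod_cast hx8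
  have hb : (N : ℝ) ^ (3053 / 10000 : ℝ) ≤ x := by
    have h1 : (N : ℝ) = (N : ℝ) ^ (6947 / 10000 : ℝ) * (N : ℝ) ^ (3053 / 10000 : ℝ) := by
      rw [← Real.rpow_add hNpos]
      norm_num
    have h2 : 0 ≤ (N : ℝ) ^ (3053 / 10000 : ℝ) := by positivity
    have h3 := mul_le_mul_of_nonneg_right e1 h2
    rw [← h1] at h3
    linarith
  have hP := (abs_le.mp (hN1 N n1 x l hx8 hx hl hlx)).1
  have hZ := hN2 N n2 x l hx8 hx hl hlx
  have hlogpos : 0 ≤ Real.log (N : ℝ) := Real.log_natCast_nonneg N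
  have hl0 : (0 : ℝ) ≤ l := Nat.cast_nonneg l
  have hcard : ((Ioc x (x + l)).filter (fun m => ¬ m.Prime ∧ rou z m ∧ omz z z1 m = 0)).card +
      ((Ioc x (x + l)).filter Nat.Prime).card ≤
        ((Ioc x (x + l)).filter (fun m => ∀ p : ℕ, p.Prime → p ∣ m → (N : ℝ) ^ (3053 / 10000 : ℝ) < p)).card := by
    rw [← card_union_of_disjoint]
    · refine card_le_card ?_
      intro m hm
      rw [mem_union, mem_filter, mem_filter] at hm
      rw [mem_filter]
      rcases hm with ⟨hm, -, hr, ho⟩ | ⟨hm, hmp⟩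
      · refine ⟨hm, fun p hp hpm => ?_⟩
        have hzp := hr p hp hpm
        have hz1p : z1 < p := by
          by_contra hcon
          push Not at hcon
          rw [omz, card_eq_zero, filter_eq_empty_iff] at ho
          have hm0 : m ≠ 0 := by
            rw [mem_Ioc] at hm
            omega
          exact ho (Nat.mem_primeFactors.2 ⟨hp, hpm, hm0⟩) ⟨hzp, hcon⟩
        refine lt_of_le_of_lt hz1 ?_
        exact_mod_cast hz1p
      · refine ⟨hm, fun p hp hpm => ?_⟩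
        have hpe : p = m := (Nat.prime_dvd_prime_iff_eq hp hmp).1 hpm
        rw [hpe]
        refine lt_of_le_of_lt hb ?_
        rw [mem_Ioc] at hm
        exact_mod_cast hm.1
    · rw [disjoint_left]
      intro m h1 h2
      rw [mem_filter] at h1 h2
      exact h1.2.1 h2.2
  have hcardR : ((((Ioc x (x + l)).filter (fun m => ¬ m.Prime ∧ rou z m ∧ omz z z1 m = 0)).card : ℕ) : ℝ) +
      ((((Ioc x (x + l)).filter Nat.Prime).card : ℕ) : ℝ) ≤
        ((((Ioc x (x + l)).filter (fun m => ∀ p : ℕ, p.Prime → p ∣ m → (N : ℝ) ^ (3053 / 10000 : ℝ) < p)).card : ℕ) : ℝ) := by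
    exact_mod_cast hcard
  have hlL : 0 ≤ (l : ℝ) / Real.log N := by positivity
  have h1 : (1 + Z2 (3053 / 10000) + Z3 (3053 / 10000) + 1 / 200000) * l / Real.log N =
      (1 + Z2 (3053 / 10000) + Z3 (3053 / 10000) + 1 / 200000) * (l / Real.log N) := by ring
  have h2 : (8388 / 10000) * l / Real.log N = (8388 / 10000) * (l / Real.log N) := by ring
  have h3 : 1 / 200000 * (l : ℝ) / Real.log N = 1 / 200000 * (l / Real.log N) := by ring
  have h4 : (1 + Z2 (3053 / 10000) + Z3 (3053 / 10000) + 1 / 200000) * ((l : ℝ) / Real.log N) ≤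
      (1 + 8224 / 10000 + 163 / 10000 + 1 / 200000) * (l / Real.log N) :=
    mul_le_mul_of_nonneg_right (by linarith [Zero_Z2, Zero_Z3]) hlL
  rw [h1] at hZ
  rw [h3] at hP
  rw [h2]
  have h5 : (1 + 8224 / 10000 + 163 / 10000 + 1 / 200000) * ((l : ℝ) / Real.log N) - (1 - 1 / 200000) * (l / Real.log N) ≤
      (8388 / 10000) * (l / Real.log N) := by
    have h9 : (1 + 8224 / 10000 + 163 / 10000 + 1 / 200000) - (1 - 1 / 200000) ≤ (8388 / 10000 : ℝ) := by norm_num
    have h10 := mul_le_mul_of_nonneg_right h9 hlL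
    linarith
  linarith

end Pool.Agent.H9.TM
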