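import Pool.Agent.H9.TM.LinM

/-!
# TM Cls: classification of the composite rough numbers of `(N/8, 16N]` by the number of their small primes

`a = 111/500`, `b = 1527/5000`, `b' = 3053/10000`; `z, z1` natural numbers, `N^a ≤ z`, `N^b' ≤ z1 ≤ N^b`; `rou z m`: all prime factors `> z`; `omz z z1 m` = number of the prime factors in `(z, z1]`.
`split4` (compare `ZCntQ_split` in `H91/TQ/ZCntQ.lean`): a number `1 < m ≤ 16N` with all prime factors `> y`, `y^5 > 16N`, is a product of one, two, three or four primes in increasing order (iterate `minFac`).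
`cls_one`, `om = 1`: `m = p q`: `p ≤ z1` (else `om = 0`): first alternative.  `m = p q r`: `p ≤ z1`; if `q > z1`: second alternative; if `q ≤ z1`: `q = p` (else `om ≥ 2`), so `p² ∣ m`.  `m = p q r s`: `p ≤ z1`; `q ≤ z1`: `p² ∣ m`; `q > z1`:
  `m > N^(a + 3b') > 16N`, a contradiction.
`cls_two`, `om = 2`: `m = p q`: both `≤ z1`, `m ≤ N^(2b) < N/8`.  `m = p q r`: `p, q ≤ z1`; `p = q`: `p² ∣ m`; `r ≤ z1`: `m ≤ N^(3b) < N/8`; else the alternative.  `m = p q r s`: `p, q ≤ z1`, `p ≠ q` or `p² ∣ m`; `r ≤ z1`: `r = q`, `q² ∣ m`;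
  `r > z1`: `m > N^(2a + 2b') > 16N`.
`cls_three`, `om ≥ 3`: `m = p q` impossible; `m = p q r`: all `≤ z1`, `m ≤ N^(3b) < N/8`; `m = p q r s`: `p q r² ≤ m ≤ 16N`, `r² ≤ 16N/N^(2a)`, `r ≤ 4 N^(0.278) ≤ N^(3/10)`.
`om_le4`: five primes `> z` have a product `> 16N`.
-/

set_option autoImplicit false

namespace Pool.Agent.H9.TM

open Finset

/-- all prime factors are `> z` -/
def rou (z m : ℕ) : Prop := ∀ p : ℕ, p.Prime → p ∣ m → z < p

/-- the number of the prime factors in `(z, z1]` -/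
def omz (z z1 m : ℕ) : ℕ := (m.primeFactors.filter (fun p => z < p ∧ p ≤ z1)).card

/-- `p² ∣ m` for a prime `p > z` -/
def sqz (z m : ℕ) : Prop := ∃ p : ℕ, p.Prime ∧ z < p ∧ p ^ 2 ∣ m

private theorem Cls_mf {m : ℕ} (hm : 1 < m) :
    ∃ p m' : ℕ, p.Prime ∧ m = p * m' ∧ 1 ≤ m' ∧ ∀ q : ℕ, q.Prime → q ∣ m' → p ≤ q := by
  have h1 : m ≠ 1 := by omega
  refine ⟨m.minFac, m / m.minFac, Nat.minFac_prime h1, ?_, ?_, ?_⟩
  · exact (Nat.mul_div_cancel' (Nat.minFac_dvd m)).symm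
  · exact Nat.div_pos (Nat.minFac_le (by omega)) (Nat.minFac_pos m)
  · intro q hq hqm
    exact Nat.minFac_le_of_dvd hq.two_le (hqm.trans (Nat.div_dvd_of_dvd (Nat.minFac_dvd m)))

theorem split4 {M m : ℕ} {y : ℝ} (hy : 0 ≤ y) (h5 : (M : ℝ) < y ^ 5) (hm1 : 1 < m) (hm2 : m ≤ M)
    (hr : ∀ p : ℕ, p.Prime → p ∣ m → y < p) :
    m.Prime ∨
      (∃ p q : ℕ, p.Prime ∧ q.Prime ∧ p ≤ q ∧ m = p * q) ∨
      (∃ p q r : ℕ, p.Prime ∧ q.Prime ∧ r.Prime ∧ p ≤ q ∧ q ≤ r ∧ m = p * q * r) ∨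
      (∃ p q r s : ℕ, p.Prime ∧ q.Prime ∧ r.Prime ∧ s.Prime ∧ p ≤ q ∧ q ≤ r ∧ r ≤ s ∧ m = p * q * r * s) := by
  obtain ⟨p, m1, hp, e1, hm1', l1⟩ := Cls_mf hm1
  rcases Nat.lt_or_ge 1 m1 with g1 | g1
  swap
  · have : m1 = 1 := by omega
    subst this
    left
    rw [e1, mul_one]
    exact hp
  obtain ⟨q, m2, hq, e2, hm2', l2⟩ := Cls_mf g1
  have hpq : p ≤ q := l1 q hq (e2 ▸ Dvd.intro _ rfl)
  rcases Nat.lt_or_ge 1 m2 with g2 | g2
  swap
  · have : m2 = 1 := by omega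
    subst this
    right; left
    exact ⟨p, q, hp, hq, hpq, by rw [e1, e2, mul_one]⟩
  obtain ⟨r, m3, hr', e3, hm3', l3⟩ := Cls_mf g2
  have hqr : q ≤ r := l2 r hr' (e3 ▸ Dvd.intro _ rfl)
  rcases Nat.lt_or_ge 1 m3 with g3 | g3
  swap
  · have : m3 = 1 := by omega
    subst this
    right; right; left
    exact ⟨p, q, r, hp, hq, hr', hpq, hqr, by rw [e1, e2, e3, mul_one, mul_assoc]⟩
  obtain ⟨s, m4, hs, e4, hm4', l4⟩ := Cls_mf g3
  have hrs : r ≤ s := l3 s hs (e4 ▸ Dvd.intro _ rfl)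
  rcases Nat.lt_or_ge 1 m4 with g4 | g4
  swap
  · have : m4 = 1 := by omega
    subst this
    right; right; right
    exact ⟨p, q, r, s, hp, hq, hr', hs, hpq, hqr, hrs, by rw [e1, e2, e3, e4, mul_one]; ring⟩
  exfalso
  obtain ⟨t, m5, ht, e5, hm5', -⟩ := Cls_mf g4
  have em : m = p * q * r * s * t * m5 := by rw [e1, e2, e3, e4, e5]; ring
  have yp : y < p := hr p hp ⟨q * r * s * t * m5, by rw [em]; ring⟩
  have yq : y < q := hr q hq ⟨p * r * s * t * m5, by rw [em]; ring⟩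
  have yr : y < r := hr r hr' ⟨p * q * s * t * m5, by rw [em]; ring⟩
  have ys : y < s := hr s hs ⟨p * q * r * t * m5, by rw [em]; ring⟩
  have yt : y < t := hr t ht ⟨p * q * r * s * m5, by rw [em]; ring⟩
  have hle : p * q * r * s * t ≤ m := by
    rw [em]
    exact Nat.le_mul_of_pos_right _ (by omega)
  have hle' : (p : ℝ) * q * r * s * t ≤ M := by exact_mod_cast hle.trans hm2
  have k2 : y * y ≤ (p : ℝ) * q := mul_le_mul yp.le yq.le hy (by positivity)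
  have k3 : y * y * y ≤ (p : ℝ) * q * r := mul_le_mul k2 yr.le hy (by positivity)
  have k4 : y * y * y * y ≤ (p : ℝ) * q * r * s := mul_le_mul k3 ys.le hy (by positivity)
  have k5 : y * y * y * y * y ≤ (p : ℝ) * q * r * s * t := mul_le_mul k4 yt.le hy (by positivity)
  have k6 : y ^ 5 = y * y * y * y * y := by ring
  linarith

private theorem Cls_ev : ∃ N0 : ℕ, ∀ N : ℕ, N0 ≤ N → 16 ≤ N ∧ (17 : ℝ) ≤ (N : ℝ) ^ (11 / 250 : ℝ) := by
  have h3 : ∀ᶠ N : ℕ in Filter.atTop, (17 : ℝ) ≤ (N : ℝ) ^ (11 / 250 : ℝ) :=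
    ((tendsto_rpow_atTop (by norm_num : (0 : ℝ) < 11 / 250)).comp tendsto_natCast_atTop_atTop).eventually_ge_atTop _
  obtain ⟨N0, hN0⟩ := Filter.eventually_atTop.1 ((Filter.eventually_ge_atTop 16).and h3)
  exact ⟨N0, hN0⟩

private theorem Cls_pw {N : ℕ} (hN : 16 ≤ N) (h17 : (17 : ℝ) ≤ (N : ℝ) ^ (11 / 250 : ℝ)) (e : ℝ) (he : 1 + 11 / 250 ≤ e) :
    16 * (N : ℝ) < (N : ℝ) ^ e := by
  have hNr : (16 : ℝ) ≤ N := by exact_mod_cast hN
  have hN0 : (0 : ℝ) < N := by linarith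
  calc 16 * (N : ℝ) < N * 17 := by linarith
    _ ≤ N * (N : ℝ) ^ (11 / 250 : ℝ) := mul_le_mul_of_nonneg_left h17 hN0.le
    _ = (N : ℝ) ^ (1 + 11 / 250 : ℝ) := by rw [Real.rpow_add hN0, Real.rpow_one]
    _ ≤ (N : ℝ) ^ e := Real.rpow_le_rpow_of_exponent_le (by linarith) he

private theorem Cls_pw2 {N : ℕ} (hN : 16 ≤ N) (h17 : (17 : ℝ) ≤ (N : ℝ) ^ (11 / 250 : ℝ)) (e : ℝ) (he : e + 11 / 250 ≤ 1) :
    8 * (N : ℝ) ^ e < N := by
  have hNr : (16 : ℝ) ≤ N := by exact_mod_cast hN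
  have hN0 : (0 : ℝ) < N := by linarith
  have hp : 0 < (N : ℝ) ^ e := Real.rpow_pos_of_pos hN0 e
  calc 8 * (N : ℝ) ^ e < (N : ℝ) ^ e * 17 := by linarith
    _ ≤ (N : ℝ) ^ e * (N : ℝ) ^ (11 / 250 : ℝ) := mul_le_mul_of_nonneg_left h17 hp.le
    _ = (N : ℝ) ^ (e + 11 / 250 : ℝ) := by rw [Real.rpow_add hN0]
    _ ≤ (N : ℝ) ^ (1 : ℝ) := Real.rpow_le_rpow_of_exponent_le (by linarith) he
    _ = N := Real.rpow_one _

private theorem Cls_five {N : ℕ} (hN : 16 ≤ N) (h17 : (17 : ℝ) ≤ (N : ℝ) ^ (11 / 250 : ℝ)) :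
    16 * (N : ℝ) < ((N : ℝ) ^ (111 / 500 : ℝ)) ^ 5 := by
  rw [← Real.rpow_natCast, ← Real.rpow_mul (Nat.cast_nonneg N)]
  exact Cls_pw hN h17 _ (by norm_num)

theorem om_le4 : ∃ N0 : ℕ, ∀ N : ℕ, N0 ≤ N → ∀ z z1 m : ℕ, (N : ℝ) ^ (111 / 500 : ℝ) ≤ z → 1 ≤ m → m ≤ 16 * N → omz z z1 m ≤ 4 := by
  obtain ⟨N0, hN0⟩ := Cls_ev
  refine ⟨N0, fun N hN z z1 m hz hm1 hm2 => ?_⟩
  obtain ⟨h16, h17⟩ := hN0 N hN
  have hF := Cls_five h16 h17
  by_contra hcon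
  push Not at hcon
  unfold omz at hcon
  obtain ⟨T, hTS, hT5⟩ := exists_subset_card_eq (show 5 ≤ (m.primeFactors.filter (fun p => z < p ∧ p ≤ z1)).card by omega)
  have hT : ∀ p ∈ T, p.Prime ∧ p ∣ m ∧ z < p := by
    intro p hp
    have h1 := hTS hp
    rw [mem_filter] at h1
    exact ⟨Nat.prime_of_mem_primeFactors h1.1, Nat.dvd_of_mem_primeFactors h1.1, h1.2.1⟩
  have hdvd : ∏ p ∈ T, p ∣ m :=
    Finset.prod_primes_dvd m (fun p hp => (hT p hp).1.prime) (fun p hp => (hT p hp).2.1)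
  have hle : ∏ p ∈ T, p ≤ 16 * N := (Nat.le_of_dvd (by omega) hdvd).trans hm2
  have hle' : ∏ p ∈ T, (p : ℝ) ≤ 16 * N := by
    have h0 : ((∏ p ∈ T, p : ℕ) : ℝ) ≤ ((16 * N : ℕ) : ℝ) := Nat.cast_le.2 hle
    rw [Nat.cast_prod, Nat.cast_mul] at h0
    simpa using h0
  have hNr : (0 : ℝ) < N := by exact_mod_cast (by omega : 0 < N)
  have hbase : 0 < (N : ℝ) ^ (111 / 500 : ℝ) := Real.rpow_pos_of_pos hNr _
  have hlt : ∏ _p ∈ T, (N : ℝ) ^ (111 / 500 : ℝ) ≤ ∏ p ∈ T, (p : ℝ) := by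
    refine prod_le_prod (fun _ _ => hbase.le) (fun p hp => hz.trans ?_)
    exact_mod_cast (hT p hp).2.2.le
  rw [prod_const, hT5] at hlt
  linarith

/-- the common setup -/
private theorem Cls_set : ∃ N0 : ℕ, ∀ N : ℕ, N0 ≤ N → ∀ z z1 m : ℕ, (N : ℝ) ^ (111 / 500 : ℝ) ≤ z → (N : ℝ) ^ (3053 / 10000 : ℝ) ≤ z1 →
    (z1 : ℝ) ≤ (N : ℝ) ^ (1527 / 5000 : ℝ) → N ≤ 8 * m → m ≤ 16 * N → rou z m →
    (m.Prime ∨
      (∃ p q : ℕ, p.Prime ∧ q.Prime ∧ p ≤ q ∧ m = p * q) ∨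
      (∃ p q r : ℕ, p.Prime ∧ q.Prime ∧ r.Prime ∧ p ≤ q ∧ q ≤ r ∧ m = p * q * r) ∨
      (∃ p q r s : ℕ, p.Prime ∧ q.Prime ∧ r.Prime ∧ s.Prime ∧ p ≤ q ∧ q ≤ r ∧ r ≤ s ∧ m = p * q * r * s)) ∧
    (∀ p : ℕ, p.Prime → z < p → p ≤ z1 → p ∈ PE N (111 / 500) (1527 / 5000)) ∧
    (∀ p q r s : ℕ, z < p → z1 < q → z1 < r → z1 < s → 16 * N < p * q * r * s) ∧
    (∀ p q r s : ℕ, z < p → z < q → z1 < r → z1 < s → 16 * N < p * q * r * s) ∧
    (∀ p q r : ℕ, p ≤ z1 → q ≤ z1 → r ≤ z1 → 8 * (p * q * r) < N) ∧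
    (∀ p q r s : ℕ, p.Prime → q.Prime → r.Prime → s.Prime → z < p → p ≤ q → q ≤ r → r ≤ s → m = p * q * r * s →
      p ∈ PE N (111 / 500) (3 / 10) ∧ q ∈ PE N (111 / 500) (3 / 10) ∧ r ∈ PE N (111 / 500) (3 / 10) ∧ p * q * r ^ 2 ≤ 16 * N) ∧
    1 ≤ z1 := by
  obtain ⟨N0, hN0⟩ := Cls_ev
  refine ⟨N0, fun N hN z z1 m hz hz1 hz1' hm1 hm2 hrou => ?_⟩
  obtain ⟨h16, h17⟩ := hN0 N hN
  have hF := Cls_five h16 h17
  have hNr : (16 : ℝ) ≤ N := by exact_mod_cast h16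
  have hN0' : (0 : ℝ) < N := by linarith
  obtain ⟨A, hA⟩ : ∃ A, A = (N : ℝ) ^ (111 / 500 : ℝ) := ⟨_, rfl⟩
  obtain ⟨B', hB'⟩ : ∃ B', B' = (N : ℝ) ^ (3053 / 10000 : ℝ) := ⟨_, rfl⟩
  obtain ⟨B, hB⟩ : ∃ B, B = (N : ℝ) ^ (1527 / 5000 : ℝ) := ⟨_, rfl⟩
  obtain ⟨C, hC⟩ : ∃ C, C = (N : ℝ) ^ (3 / 10 : ℝ) := ⟨_, rfl⟩
  have hA0 : 0 < A := by rw [hA]; exact Real.rpow_pos_of_pos hN0' _
  have hB'0 : 0 < B' := by rw [hB']; exact Real.rpow_pos_of_pos hN0' _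
  have hB0 : 0 < B := by rw [hB]; exact Real.rpow_pos_of_pos hN0' _
  have hC0 : 0 < C := by rw [hC]; exact Real.rpow_pos_of_pos hN0' _
  have hB'1 : 1 ≤ B' := by rw [hB']; exact Real.one_le_rpow (by linarith) (by norm_num)
  have hBN : B ≤ N := by
    rw [hB]
    calc (N : ℝ) ^ (1527 / 5000 : ℝ) ≤ (N : ℝ) ^ (1 : ℝ) := Real.rpow_le_rpow_of_exponent_le (by linarith) (by norm_num)
      _ = N := Real.rpow_one _
  have hCN : C ≤ N := by
    rw [hC]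
    calc (N : ℝ) ^ (3 / 10 : ℝ) ≤ (N : ℝ) ^ (1 : ℝ) := Real.rpow_le_rpow_of_exponent_le (by linarith) (by norm_num)
      _ = N := Real.rpow_one _
  have f2 : 16 * (N : ℝ) < A * B' * B' * B' := by
    rw [hA, hB', ← Real.rpow_add hN0', ← Real.rpow_add hN0', ← Real.rpow_add hN0']
    exact Cls_pw h16 h17 _ (by norm_num)
  have f3 : 16 * (N : ℝ) < A * A * B' * B' := by
    rw [hA, hB', ← Real.rpow_add hN0', ← Real.rpow_add hN0', ← Real.rpow_add hN0']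
    exact Cls_pw h16 h17 _ (by norm_num)
  have f4 : 8 * (B * B * B) < N := by
    rw [hB, ← Real.rpow_add hN0', ← Real.rpow_add hN0']
    exact Cls_pw2 h16 h17 _ (by norm_num)
  have f5 : 16 * (N : ℝ) < A * A * (C * C) := by
    rw [hA, hC, ← Real.rpow_add hN0', ← Real.rpow_add hN0', ← Real.rpow_add hN0']
    exact Cls_pw h16 h17 _ (by norm_num)
  rw [← hA] at hz hF
  rw [← hB'] at hz1
  rw [← hB] at hz1'
  refine ⟨?_, ?_, ?_, ?_, ?_, ?_, ?_⟩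
  · refine split4 (M := 16 * N) (y := (z : ℝ)) (Nat.cast_nonneg z) ?_ (by omega) hm2 (fun p hp hpm => ?_)
    · push_cast
      exact lt_of_lt_of_le hF (pow_le_pow_left₀ hA0.le hz 5)
    · exact_mod_cast hrou p hp hpm
  · intro p hp hzp hpz
    have h1 : (z : ℝ) < p := by exact_mod_cast hzp
    have h2 : (p : ℝ) ≤ z1 := by exact_mod_cast hpz
    have h3 : (p : ℝ) ≤ N := by linarith
    unfold PE
    rw [mem_filter, mem_Icc, ← hA, ← hB]
    exact ⟨⟨hp.one_lt.le, by exact_mod_cast h3⟩, hp, by linarith, by linarith⟩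
  · intro p q r s hp hq hr hs
    have h1 : (z : ℝ) < p := by exact_mod_cast hp
    have h2 : (z1 : ℝ) < q := by exact_mod_cast hq
    have h3 : (z1 : ℝ) < r := by exact_mod_cast hr
    have h4 : (z1 : ℝ) < s := by exact_mod_cast hs
    have k2 : A * B' ≤ (p : ℝ) * q := mul_le_mul (by linarith) (by linarith) hB'0.le (by positivity)
    have k3 : A * B' * B' ≤ (p : ℝ) * q * r := mul_le_mul k2 (by linarith) hB'0.le (by positivity)
    have k4 : A * B' * B' * B' ≤ (p : ℝ) * q * r * s := mul_le_mul k3 (by linarith) hB'0.le (by positivity)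
    have k5 : 16 * (N : ℝ) < (p : ℝ) * q * r * s := by linarith
    exact_mod_cast k5
  · intro p q r s hp hq hr hs
    have h1 : (z : ℝ) < p := by exact_mod_cast hp
    have h2 : (z : ℝ) < q := by exact_mod_cast hq
    have h3 : (z1 : ℝ) < r := by exact_mod_cast hr
    have h4 : (z1 : ℝ) < s := by exact_mod_cast hs
    have k2 : A * A ≤ (p : ℝ) * q := mul_le_mul (by linarith) (by linarith) hA0.le (by positivity)
    have k3 : A * A * B' ≤ (p : ℝ) * q * r := mul_le_mul k2 (by linarith) hB'0.le (by positivity)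
    have k4 : A * A * B' * B' ≤ (p : ℝ) * q * r * s := mul_le_mul k3 (by linarith) hB'0.le (by positivity)
    have k5 : 16 * (N : ℝ) < (p : ℝ) * q * r * s := by linarith
    exact_mod_cast k5
  · intro p q r hp hq hr
    have h1 : (p : ℝ) ≤ z1 := by exact_mod_cast hp
    have h2 : (q : ℝ) ≤ z1 := by exact_mod_cast hq
    have h3 : (r : ℝ) ≤ z1 := by exact_mod_cast hr
    have k2 : (p : ℝ) * q ≤ B * B := mul_le_mul (by linarith) (by linarith) (by positivity) hB0.le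
    have k3 : (p : ℝ) * q * r ≤ B * B * B := mul_le_mul k2 (by linarith) (by positivity) (by positivity)
    have k5 : 8 * ((p : ℝ) * q * r) < N := by linarith
    exact_mod_cast k5
  · intro p q r s hp hq hr hs hzp hpq hqr hrs em
    have h1 : (z : ℝ) < p := by exact_mod_cast hzp
    have h2 : (p : ℝ) ≤ q := by exact_mod_cast hpq
    have h3 : (q : ℝ) ≤ r := by exact_mod_cast hqr
    have h4 : (r : ℝ) ≤ s := by exact_mod_cast hrs
    have hle : p * q * r ^ 2 ≤ 16 * N := by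
      refine le_trans ?_ hm2
      rw [em, pow_two, ← mul_assoc]
      exact Nat.mul_le_mul_left _ hrs
    have hle' : (p : ℝ) * q * (r * r) ≤ 16 * N := by
      have h0 : ((p * q * r ^ 2 : ℕ) : ℝ) ≤ ((16 * N : ℕ) : ℝ) := Nat.cast_le.2 hle
      push_cast at h0
      linarith [h0, (by ring : (p : ℝ) * q * r ^ 2 = (p : ℝ) * q * (r * r))]
    have hrC : (r : ℝ) ≤ C := by
      by_contra hcon
      push Not at hcon
      have k2 : A * A ≤ (p : ℝ) * q := mul_le_mul (by linarith) (by linarith) hA0.le (by positivity)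
      have k3 : C * C ≤ (r : ℝ) * r := mul_le_mul hcon.le hcon.le hC0.le (by positivity)
      have k4 : A * A * (C * C) ≤ (p : ℝ) * q * (r * r) := mul_le_mul k2 k3 (by positivity) (by positivity)
      linarith
    have hmem : ∀ t : ℕ, t.Prime → A < t → (t : ℝ) ≤ C → t ∈ PE N (111 / 500) (3 / 10) := by
      intro t ht h5 h6
      have h7 : (t : ℝ) ≤ N := by linarith
      unfold PE
      rw [mem_filter, mem_Icc, ← hA, ← hC]
      exact ⟨⟨ht.one_lt.le, by exact_mod_cast h7⟩, ht, h5, h6⟩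
    exact ⟨hmem p hp (by linarith) (by linarith), hmem q hq (by linarith) (by linarith), hmem r hr (by linarith) hrC, hle⟩
  · have h1 : (1 : ℝ) ≤ z1 := by linarith
    exact_mod_cast h1

private theorem Cls_mem {z z1 m p : ℕ} (hm : m ≠ 0) (hp : p.Prime) (hpm : p ∣ m) (h1 : z < p) (h2 : p ≤ z1) :
    p ∈ m.primeFactors.filter (fun p => z < p ∧ p ≤ z1) := by
  rw [mem_filter, Nat.mem_primeFactors]
  exact ⟨⟨hp, hpm, hm⟩, h1, h2⟩

private theorem Cls_two {z z1 m p q : ℕ} (hm : m ≠ 0) (hp : p.Prime) (hq : q.Prime) (hpm : p ∣ m) (hqm : q ∣ m) (hpq : p ≠ q)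
    (hp1 : z < p) (hp2 : p ≤ z1) (hq1 : z < q) (hq2 : q ≤ z1) : 2 ≤ omz z z1 m :=
  one_lt_card.2 ⟨p, Cls_mem hm hp hpm hp1 hp2, q, Cls_mem hm hq hqm hq1 hq2, hpq⟩

private theorem Cls_three {z z1 m p q r : ℕ} (hm : m ≠ 0) (hp : p.Prime) (hq : q.Prime) (hr : r.Prime) (hpm : p ∣ m) (hqm : q ∣ m)
    (hrm : r ∣ m) (hpq : p ≠ q) (hpr : p ≠ r) (hqr : q ≠ r) (hp1 : z < p) (hp2 : p ≤ z1) (hq1 : z < q) (hq2 : q ≤ z1)
    (hr1 : z < r) (hr2 : r ≤ z1) : 3 ≤ omz z z1 m :=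
  two_lt_card.2 ⟨p, Cls_mem hm hp hpm hp1 hp2, q, Cls_mem hm hq hqm hq1 hq2, r, Cls_mem hm hr hrm hr1 hr2, hpq, hpr, hqr⟩

/-- if all prime factors in the range lie in a set, `omz` is at most its size -/
private theorem Cls_le {z z1 m : ℕ} (S : Finset ℕ) (h : ∀ x : ℕ, x.Prime → x ∣ m → x ≤ z1 → x ∈ S) : omz z z1 m ≤ S.card := by
  refine card_le_card fun x hx => ?_
  rw [mem_filter, Nat.mem_primeFactors] at hx
  exact h x hx.1.1 hx.1.2.1 hx.2.2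

private theorem Cls_dvd2 {x p q : ℕ} (hx : x.Prime) (hp : p.Prime) (hq : q.Prime) (h : x ∣ p * q) : x = p ∨ x = q := by
  rcases (Nat.Prime.dvd_mul hx).1 h with h | h
  · exact Or.inl ((Nat.prime_dvd_prime_iff_eq hx hp).1 h)
  · exact Or.inr ((Nat.prime_dvd_prime_iff_eq hx hq).1 h)

private theorem Cls_dvd3 {x p q r : ℕ} (hx : x.Prime) (hp : p.Prime) (hq : q.Prime) (hr : r.Prime) (h : x ∣ p * q * r) :
    x = p ∨ x = q ∨ x = r := by
  rcases (Nat.Prime.dvd_mul hx).1 h with h | h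
  · rcases Cls_dvd2 hx hp hq h with h | h
    · exact Or.inl h
    · exact Or.inr (Or.inl h)
  · exact Or.inr (Or.inr ((Nat.prime_dvd_prime_iff_eq hx hr).1 h))

private theorem Cls_dvd4 {x p q r s : ℕ} (hx : x.Prime) (hp : p.Prime) (hq : q.Prime) (hr : r.Prime) (hs : s.Prime)
    (h : x ∣ p * q * r * s) : x = p ∨ x = q ∨ x = r ∨ x = s := by
  rcases (Nat.Prime.dvd_mul hx).1 h with h | h
  · rcases Cls_dvd3 hx hp hq hr h with h | h | h
    · exact Or.inl h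
    · exact Or.inr (Or.inl h)
    · exact Or.inr (Or.inr (Or.inl h))
  · exact Or.inr (Or.inr (Or.inr ((Nat.prime_dvd_prime_iff_eq hx hs).1 h)))

theorem cls_one : ∃ N0 : ℕ, ∀ N : ℕ, N0 ≤ N → ∀ z z1 m : ℕ, (N : ℝ) ^ (111 / 500 : ℝ) ≤ z → (N : ℝ) ^ (3053 / 10000 : ℝ) ≤ z1 →
    (z1 : ℝ) ≤ (N : ℝ) ^ (1527 / 5000 : ℝ) → N ≤ 8 * m → m ≤ 16 * N → rou z m → ¬ m.Prime → omz z z1 m = 1 → ¬ sqz z m →
    (∃ p ∈ PE N (111 / 500) (1527 / 5000), ∃ q : ℕ, q.Prime ∧ m = p * q) ∨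
    (∃ p ∈ PE N (111 / 500) (1527 / 5000),
      ∃ q ∈ (Icc 1 (16 * N)).filter (fun q : ℕ => q.Prime ∧ (N : ℝ) ^ (3053 / 10000 : ℝ) < q ∧ p * q ^ 2 ≤ 16 * N),
        ∃ r : ℕ, r.Prime ∧ m = p * q * r) := by
  obtain ⟨N0, hN0⟩ := Cls_set
  refine ⟨max N0 16, fun N hN z z1 m hz hz1 hz1' hm1 hm2 hrou hnp hom hsq => ?_⟩
  have h16 : 16 ≤ N := (le_max_right _ _).trans hN
  obtain ⟨hsplit, hPE, hbig1, -, -, -, -⟩ := hN0 N ((le_max_left _ _).trans hN) z z1 m hz hz1 hz1' hm1 hm2 hrou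
  have hm0 : m ≠ 0 := by omega
  -- some prime factor is at most `z1`
  have hlow : ∃ x : ℕ, x.Prime ∧ x ∣ m ∧ x ≤ z1 := by
    by_contra hcon
    push Not at hcon
    have h1 := Cls_le (z := z) (z1 := z1) (m := m) ∅ (fun x hx hxm hxz => absurd hxz (not_le.2 (hcon x hx hxm)))
    rw [hom] at h1
    simp at h1
  obtain ⟨x, hx, hxm, hxz⟩ := hlow
  rcases hsplit with h | ⟨p, q, hp, hq, hpq, em⟩ | ⟨p, q, r, hp, hq, hr, hpq, hqr, em⟩ | ⟨p, q, r, s, hp, hq, hr, hs, hpq, hqr, hrs, em⟩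
  · exact absurd h hnp
  · left
    have hpm : p ∣ m := ⟨q, em⟩
    have hpz : p ≤ z1 := by
      rcases Cls_dvd2 hx hp hq (em ▸ hxm) with h | h <;> omega
    exact ⟨p, hPE p hp (hrou p hp hpm) hpz, q, hq, em⟩
  · have hpm : p ∣ m := ⟨q * r, by rw [em]; ring⟩
    have hqm : q ∣ m := ⟨p * r, by rw [em]; ring⟩
    have hpz : p ≤ z1 := by
      rcases Cls_dvd3 hx hp hq hr (em ▸ hxm) with h | h | h <;> omega
    rcases le_or_gt q z1 with hqz | hqz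
    · exfalso
      by_cases hne : p = q
      · exact hsq ⟨p, hp, hrou p hp hpm, ⟨r, by rw [em, ← hne]; ring⟩⟩
      · have := Cls_two hm0 hp hq hpm hqm hne (hrou p hp hpm) hpz (hrou q hq hqm) hqz
        omega
    · right
      have hle : p * q ^ 2 ≤ 16 * N := by
        refine le_trans ?_ hm2
        rw [em, pow_two, ← mul_assoc]
        exact Nat.mul_le_mul_left _ hqr
      refine ⟨p, hPE p hp (hrou p hp hpm) hpz, q, ?_, r, hr, em⟩
      rw [mem_filter, mem_Icc]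
      refine ⟨⟨hq.one_lt.le, ?_⟩, hq, ?_, hle⟩
      · refine le_trans ?_ hle
        calc q ≤ q * q := Nat.le_mul_of_pos_left q hq.pos
          _ = q ^ 2 := (pow_two q).symm
          _ ≤ p * q ^ 2 := Nat.le_mul_of_pos_left _ hp.pos
      · refine lt_of_le_of_lt hz1 ?_
        exact_mod_cast hqz
  · exfalso
    have hpm : p ∣ m := ⟨q * r * s, by rw [em]; ring⟩
    have hqm : q ∣ m := ⟨p * r * s, by rw [em]; ring⟩
    have hpz : p ≤ z1 := by
      rcases Cls_dvd4 hx hp hq hr hs (em ▸ hxm) with h | h | h | h <;> omega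
    rcases le_or_gt q z1 with hqz | hqz
    · by_cases hne : p = q
      · exact hsq ⟨p, hp, hrou p hp hpm, ⟨r * s, by rw [em, ← hne]; ring⟩⟩
      · have := Cls_two hm0 hp hq hpm hqm hne (hrou p hp hpm) hpz (hrou q hq hqm) hqz
        omega
    · have := hbig1 p q r s (hrou p hp hpm) hqz (by omega) (by omega)
      omega

theorem cls_two : ∃ N0 : ℕ, ∀ N : ℕ, N0 ≤ N → ∀ z z1 m : ℕ, (N : ℝ) ^ (111 / 500 : ℝ) ≤ z → (N : ℝ) ^ (3053 / 10000 : ℝ) ≤ z1 →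
    (z1 : ℝ) ≤ (N : ℝ) ^ (1527 / 5000 : ℝ) → N ≤ 8 * m → m ≤ 16 * N → rou z m → ¬ m.Prime → omz z z1 m = 2 → ¬ sqz z m →
    ∃ p ∈ PE N (111 / 500) (1527 / 5000), ∃ q ∈ (PE N (111 / 500) (1527 / 5000)).filter (fun q => p < q),
      ∃ r : ℕ, r.Prime ∧ m = p * q * r := by
  obtain ⟨N0, hN0⟩ := Cls_set
  refine ⟨max N0 16, fun N hN z z1 m hz hz1 hz1' hm1 hm2 hrou hnp hom hsq => ?_⟩
  have h16 : 16 ≤ N := (le_max_right _ _).trans hN
  obtain ⟨hsplit, hPE, -, hbig2, hsmall, -, hz1p⟩ := hN0 N ((le_max_left _ _).trans hN) z z1 m hz hz1 hz1' hm1 hm2 hrou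
  have hm0 : m ≠ 0 := by omega
  rcases hsplit with h | ⟨p, q, hp, hq, hpq, em⟩ | ⟨p, q, r, hp, hq, hr, hpq, hqr, em⟩ | ⟨p, q, r, s, hp, hq, hr, hs, hpq, hqr, hrs, em⟩
  · exact absurd h hnp
  · exfalso
    have hqz : q ≤ z1 := by
      by_contra hcon
      have h1 := Cls_le (z := z) (z1 := z1) (m := m) {p} (fun x hx hxm hxz => by
        rcases Cls_dvd2 hx hp hq (em ▸ hxm) with h | h
        · rw [h]; exact mem_singleton_self p
        · omega)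
      rw [hom, card_singleton] at h1
      omega
    have h1 := hsmall p q 1 (by omega) hqz hz1p
    rw [mul_one, ← em] at h1
    omega
  · have hpm : p ∣ m := ⟨q * r, by rw [em]; ring⟩
    have hqm : q ∣ m := ⟨p * r, by rw [em]; ring⟩
    have hqz : q ≤ z1 := by
      by_contra hcon
      have h1 := Cls_le (z := z) (z1 := z1) (m := m) {p} (fun x hx hxm hxz => by
        rcases Cls_dvd3 hx hp hq hr (em ▸ hxm) with h | h | h
        · rw [h]; exact mem_singleton_self p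
        · omega
        · omega)
      rw [hom, card_singleton] at h1
      omega
    have hne : p ≠ q := by
      intro hne
      exact hsq ⟨p, hp, hrou p hp hpm, ⟨r, by rw [em, ← hne]; ring⟩⟩
    refine ⟨p, hPE p hp (hrou p hp hpm) (by omega), q, ?_, r, hr, em⟩
    rw [mem_filter]
    exact ⟨hPE q hq (hrou q hq hqm) hqz, by omega⟩
  · exfalso
    have hpm : p ∣ m := ⟨q * r * s, by rw [em]; ring⟩
    have hqm : q ∣ m := ⟨p * r * s, by rw [em]; ring⟩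
    have hrm : r ∣ m := ⟨p * q * s, by rw [em]; ring⟩
    have hqz : q ≤ z1 := by
      by_contra hcon
      have h1 := Cls_le (z := z) (z1 := z1) (m := m) {p} (fun x hx hxm hxz => by
        rcases Cls_dvd4 hx hp hq hr hs (em ▸ hxm) with h | h | h | h
        · rw [h]; exact mem_singleton_self p
        · omega
        · omega
        · omega)
      rw [hom, card_singleton] at h1
      omega
    have hne : p ≠ q := by
      intro hne
      exact hsq ⟨p, hp, hrou p hp hpm, ⟨r * s, by rw [em, ← hne]; ring⟩⟩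
    rcases le_or_gt r z1 with hrz | hrz
    · by_cases hne2 : q = r
      · exact hsq ⟨q, hq, hrou q hq hqm, ⟨p * s, by rw [em, ← hne2]; ring⟩⟩
      · have := Cls_three hm0 hp hq hr hpm hqm hrm hne (by omega) hne2 (hrou p hp hpm) (by omega) (hrou q hq hqm) hqz
          (hrou r hr hrm) hrz
        omega
    · have := hbig2 p q r s (hrou p hp hpm) (hrou q hq hqm) hrz (by omega)
      omega

theorem cls_three : ∃ N0 : ℕ, ∀ N : ℕ, N0 ≤ N → ∀ z z1 m : ℕ, (N : ℝ) ^ (111 / 500 : ℝ) ≤ z → (N : ℝ) ^ (3053 / 10000 : ℝ) ≤ z1 →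
    (z1 : ℝ) ≤ (N : ℝ) ^ (1527 / 5000 : ℝ) → N ≤ 8 * m → m ≤ 16 * N → rou z m → 3 ≤ omz z z1 m →
    ∃ p ∈ PE N (111 / 500) (3 / 10), ∃ q ∈ (PE N (111 / 500) (3 / 10)).filter (fun q => p ≤ q),
      ∃ r ∈ (PE N (111 / 500) (3 / 10)).filter (fun r => q ≤ r ∧ p * q * r ^ 2 ≤ 16 * N),
        ∃ s : ℕ, s.Prime ∧ m = p * q * r * s := by
  obtain ⟨N0, hN0⟩ := Cls_set
  refine ⟨max N0 16, fun N hN z z1 m hz hz1 hz1' hm1 hm2 hrou hom => ?_⟩
  have h16 : 16 ≤ N := (le_max_right _ _).trans hN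
  obtain ⟨hsplit, -, -, -, hsmall, hfour, -⟩ := hN0 N ((le_max_left _ _).trans hN) z z1 m hz hz1 hz1' hm1 hm2 hrou
  have hm0 : m ≠ 0 := by omega
  rcases hsplit with h | ⟨p, q, hp, hq, hpq, em⟩ | ⟨p, q, r, hp, hq, hr, hpq, hqr, em⟩ | ⟨p, q, r, s, hp, hq, hr, hs, hpq, hqr, hrs, em⟩
  · exfalso
    have h1 := Cls_le (z := z) (z1 := z1) (m := m) {m} (fun x hx hxm _ => by
      rw [(Nat.prime_dvd_prime_iff_eq hx h).1 hxm]
      exact mem_singleton_self m)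
    rw [card_singleton] at h1
    omega
  · exfalso
    have h1 := Cls_le (z := z) (z1 := z1) (m := m) {p, q} (fun x hx hxm _ => by
      rw [mem_insert, mem_singleton]
      exact Cls_dvd2 hx hp hq (em ▸ hxm))
    have h2 := card_le_two (a := p) (b := q)
    omega
  · exfalso
    have hrz : r ≤ z1 := by
      by_contra hcon
      have h1 := Cls_le (z := z) (z1 := z1) (m := m) {p, q} (fun x hx hxm hxz => by
        rw [mem_insert, mem_singleton]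
        rcases Cls_dvd3 hx hp hq hr (em ▸ hxm) with h | h | h
        · exact Or.inl h
        · exact Or.inr h
        · omega)
      have h2 := card_le_two (a := p) (b := q)
      omega
    have h1 := hsmall p q r (by omega) (by omega) hrz
    rw [← em] at h1
    omega
  · have hpm : p ∣ m := ⟨q * r * s, by rw [em]; ring⟩
    obtain ⟨h1, h2, h3, h4⟩ := hfour p q r s hp hq hr hs (hrou p hp hpm) hpq hqr hrs em
    refine ⟨p, h1, q, ?_, r, ?_, s, hs, em⟩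
    · rw [mem_filter]
      exact ⟨h2, hpq⟩
    · rw [mem_filter]
      exact ⟨h3, hqr, h4⟩

end Pool.Agent.H9.TM
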