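import Pool.Agent.H9.TM.MeanF
import Pool.Agent.H91.TQ.EqQ
import Pool.Agent.H91.TQ.KapQ

/-!
# TM MeanQ: the means of the type II sums with `bf` and `bq`

`mean_f` with `f = bf`, `D = kap` and with `f = bq`, `D = kq` (`WK`, `WQ` are `∑_{p ∈ pb P} D(x/p)/p` by definition).  Hypotheses: `eq_bg (1/2) e1 (2221/10000) 3 0 (K+1)` and `eq_q e1 (2221/10000) (1527/5000) (5/8) 3 0 (K+1)` with `c = 1`, `b = 0`, at
`x/p ≥ N^(3/4)/16` (natural division), `l_p = (x+l)/p - x/p`: `(x/p)/L^(K+1) ≤ l_p ≤ (x/p)/L^9` (as in the proof of `mass_q`, `H91/TQ/MassQ.lean`, `b1 .. b4`, `hb`); `kap_abs`, `kq_abs`: `|kap| ≤ 2`, `|kq| ≤ 3 + log z1 ≤ L²`.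
(`yN e1 N ≥ 3` for large `N`.)
-/

set_option autoImplicit false

namespace Pool.Agent.H9.TM

open Finset
open Pool.Agent.H35.W (pb)
open Pool.Agent.H53.MID (Fp)
open Pool.Agent.H76.TP
open Pool.Agent.H91.TQ (bq WQ)

private theorem MeanQ_ev (δ : ℝ) (hδ : 0 < δ) (M : ℕ) :
    ∃ N0 : ℕ, ∀ N : ℕ, N0 ≤ N → 2 ≤ N ∧ 8 ≤ Real.log N ∧
      16 * Real.log N ^ M ≤ (N : ℝ) ^ δ := by
  have hcast := tendsto_natCast_atTop_atTop (R := ℝ)
  have hlog : Filter.Tendsto (fun N : ℕ => Real.log (N : ℝ)) Filter.atTop Filter.atTop :=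
    Real.tendsto_log_atTop.comp hcast
  have h1 : ∀ᶠ N : ℕ in Filter.atTop, 2 ≤ N := Filter.eventually_ge_atTop 2
  have h2 : ∀ᶠ N : ℕ in Filter.atTop, 8 ≤ Real.log N := hlog.eventually_ge_atTop 8
  have h5 : ∀ᶠ N : ℕ in Filter.atTop, 16 * Real.log N ^ M ≤ (N : ℝ) ^ δ := by
    have h6 := (isLittleO_log_rpow_rpow_atTop (M : ℝ) hδ).bound
      (show (0 : ℝ) < 1 / 16 by norm_num)
    have h7 := hcast.eventually h6
    filter_upwards [h7, h1, h2] with N h8 h9 h10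
    rw [Real.norm_eq_abs, Real.norm_eq_abs, Real.rpow_natCast,
      abs_of_nonneg (by positivity), abs_of_nonneg (by positivity)] at h8
    linarith
  obtain ⟨N0, hN0⟩ := Filter.eventually_atTop.1 (h1.and (h2.and h5))
  exact ⟨N0, fun N hN => hN0 N hN⟩

private theorem MeanQ_real (X n lp l L : ℝ) (K : ℕ) (hL : 8 ≤ L) (hn1 : n ≤ X) (hn2 : X - 1 ≤ n)
    (hX : 16 * L ^ (K + 9) ≤ X) (hlp1 : l - 1 ≤ lp) (hlp2 : lp ≤ l + 1)
    (hl1 : X / L ^ K ≤ l) (hl2 : l ≤ 4 * X / L ^ 10) :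
    n / L ^ (K + 1) ≤ lp ∧ lp ≤ n / L ^ 9 := by
  have hL0 : 0 < L := by linarith
  have hL1 : 1 ≤ L := by linarith
  have hK : 1 ≤ L ^ K := one_le_pow₀ hL1
  have h9 : 1 ≤ L ^ 9 := one_le_pow₀ hL1
  have hX0 : 0 < X := lt_of_lt_of_le (by positivity) hX
  have hX1 : 16 * L ^ K ≤ X := by
    refine le_trans ?_ hX
    rw [pow_add]
    nlinarith
  have hX2 : 16 * L ^ 9 ≤ X := by
    refine le_trans ?_ hX
    rw [pow_add]
    nlinarith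
  constructor
  · have h1 : n / L ^ (K + 1) ≤ X / L ^ (K + 1) := by gcongr
    have h2 : X / L ^ (K + 1) ≤ X / L ^ K / 8 := by
      rw [pow_succ, ← div_div]
      exact div_le_div_of_nonneg_left (by positivity) (by norm_num) hL
    have h3 : 16 ≤ X / L ^ K := by
      rw [le_div_iff₀ (by positivity)]
      exact hX1
    linarith
  · have h1 : (X - 1) / L ^ 9 ≤ n / L ^ 9 := by gcongr
    have h2 : 4 * X / L ^ 10 ≤ X / L ^ 9 / 2 := by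
      rw [show (10 : ℕ) = 9 + 1 from rfl, pow_succ, ← div_div, div_le_iff₀ hL0]
      have h3 : 0 ≤ X / L ^ 9 := by positivity
      have h4 : 4 * X / L ^ 9 = 4 * (X / L ^ 9) := by ring
      rw [h4]
      nlinarith
    have h3 : 16 ≤ X / L ^ 9 := by
      rw [le_div_iff₀ (by positivity)]
      exact hX2
    have h4 : (X - 1) / L ^ 9 = X / L ^ 9 - 1 / L ^ 9 := by ring
    have h5 : 1 / L ^ 9 ≤ 1 := by
      rw [div_le_one (by positivity)]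
      exact h9
    linarith

private theorem MeanQ_len (x l p : ℕ) (hp : 0 < p) :
    (l : ℝ) / p - 1 ≤ (((x + l) / p - x / p : ℕ) : ℝ) ∧
      (((x + l) / p - x / p : ℕ) : ℝ) ≤ (l : ℝ) / p + 1 := by
  have hdiv : x / p ≤ (x + l) / p := Nat.div_le_div_right (Nat.le_add_right _ _)
  have hpR : (0 : ℝ) < p := by exact_mod_cast hp
  rw [Nat.cast_sub hdiv]
  have h1 : ((x / p : ℕ) : ℝ) ≤ (x : ℝ) / p := Nat.cast_div_le
  have h2 : (((x + l) / p : ℕ) : ℝ) ≤ ((x + l : ℕ) : ℝ) / p := Nat.cast_div_le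
  have h3 : (x : ℝ) / p < ((x / p : ℕ) : ℝ) + 1 := by
    rw [div_lt_iff₀ hpR]
    have := Nat.lt_div_mul_add (a := x) hp
    have h4 : x < (x / p + 1) * p := by
      rw [add_mul, one_mul]
      exact this
    exact_mod_cast h4
  have h5 : ((x + l : ℕ) : ℝ) / p < (((x + l) / p : ℕ) : ℝ) + 1 := by
    rw [div_lt_iff₀ hpR]
    have := Nat.lt_div_mul_add (a := x + l) hp
    have h4 : x + l < ((x + l) / p + 1) * p := by
      rw [add_mul, one_mul]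
      exact this
    exact_mod_cast h4
  have h6 : ((x + l : ℕ) : ℝ) / p = (x : ℝ) / p + (l : ℝ) / p := by
    push_cast
    ring
  rw [h6] at h2 h5
  constructor <;> linarith

private theorem MeanQ_all (e1 : ℝ) (he1 : 0 < e1) (K : ℕ) : ∃ N0 : ℕ, ∀ N : ℕ, N0 ≤ N → ∀ J x l : ℕ,
    (zz (yN e1 N) J : ℝ) ≤ (N : ℝ) ^ (2221 / 10000 : ℝ) → N ≤ 8 * x → x ≤ 8 * N → (x : ℝ) / Real.log N ^ K ≤ l →
    (l : ℝ) ≤ 4 * x / Real.log N ^ 10 →
      2 ≤ N ∧ 8 ≤ Real.log N ∧ 3 ≤ yN e1 N ∧ l ≤ x ∧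
      ∀ p ∈ PY (yN e1 N) (zz (yN e1 N) J),
        (N : ℝ) ^ (5 / 8 : ℝ) ≤ ((x / p : ℕ) : ℝ) ∧ x / p ≤ N ^ 2 ∧
        ((x / p : ℕ) : ℝ) / Real.log N ^ (K + 1) ≤ (((x + l) / p - x / p : ℕ) : ℝ) ∧
        (((x + l) / p - x / p : ℕ) : ℝ) ≤ ((x / p : ℕ) : ℝ) / Real.log N ^ 9 := by
  obtain ⟨N1, hN1⟩ := MeanQ_ev (5 / 8) (by norm_num) (K + 9)
  obtain ⟨N2, hN2⟩ := MeanQ_ev (1 / 10) (by norm_num) 0
  obtain ⟨N3, hN3⟩ := MeanQ_ev e1 he1 0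
  refine ⟨N1 + N2 + N3 + 8, fun N hN J x l hz hx1 hx2 hl1 hl2 => ?_⟩
  obtain ⟨hN2', hL8, hNM⟩ := hN1 N (by omega)
  obtain ⟨-, -, hNb⟩ := hN2 N (by omega)
  obtain ⟨-, -, hNe⟩ := hN3 N (by omega)
  rw [pow_zero, mul_one] at hNb hNe
  set L : ℝ := Real.log N with hLdef
  have hL1 : 1 ≤ L := by linarith
  have hL0 : 0 < L := by linarith
  have hNR : (1 : ℝ) ≤ N := by exact_mod_cast (by omega : 1 ≤ N)
  have hNpos : (0 : ℝ) < N := by linarith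
  have hxR : (N : ℝ) ≤ 8 * x := by exact_mod_cast hx1
  have hx0 : (0 : ℝ) < x := by linarith
  have hlx : (l : ℝ) ≤ x := by
    refine hl2.trans ?_
    rw [div_le_iff₀ (by positivity)]
    have h10 : (8 : ℝ) ≤ L ^ 10 := by
      calc (8 : ℝ) ≤ L := hL8
        _ = L ^ 1 := (pow_one L).symm
        _ ≤ L ^ 10 := pow_le_pow_right₀ hL1 (by norm_num)
    nlinarith
  refine ⟨hN2', hL8, ?_, by exact_mod_cast hlx, ?_⟩
  · unfold yN
    rw [Nat.le_floor_iff (by positivity)]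
    refine le_trans ?_ hNe
    norm_num
  intro p hp
  unfold PY at hp
  rw [mem_filter, mem_Ioc] at hp
  obtain ⟨⟨hp1, hp2⟩, hp3⟩ := hp
  have hp0 : 0 < p := hp3.pos
  have hpR : (0 : ℝ) < p := by exact_mod_cast hp0
  have hpz : (p : ℝ) ≤ (N : ℝ) ^ (2221 / 10000 : ℝ) := le_trans (by exact_mod_cast hp2) hz
  have hX : 2 * (N : ℝ) ^ (5 / 8 : ℝ) ≤ (x : ℝ) / p := by
    rw [le_div_iff₀ hpR]
    have h1 : (N : ℝ) ^ (5 / 8 : ℝ) * (N : ℝ) ^ (2221 / 10000 : ℝ) * (N : ℝ) ^ (1 / 10 : ℝ) ≤ N := by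
      rw [← Real.rpow_add hNpos, ← Real.rpow_add hNpos]
      calc (N : ℝ) ^ (5 / 8 + 2221 / 10000 + 1 / 10 : ℝ) ≤ (N : ℝ) ^ (1 : ℝ) :=
            Real.rpow_le_rpow_of_exponent_le hNR (by norm_num)
        _ = N := Real.rpow_one _
    have h2 : 0 < (N : ℝ) ^ (5 / 8 : ℝ) := by positivity
    have h3 : (N : ℝ) ^ (5 / 8 : ℝ) * p ≤ (N : ℝ) ^ (5 / 8 : ℝ) * (N : ℝ) ^ (2221 / 10000 : ℝ) := by
      gcongr
    have h4 : (N : ℝ) ^ (5 / 8 : ℝ) * (N : ℝ) ^ (2221 / 10000 : ℝ) * 16 ≤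
        (N : ℝ) ^ (5 / 8 : ℝ) * (N : ℝ) ^ (2221 / 10000 : ℝ) * (N : ℝ) ^ (1 / 10 : ℝ) := by
      gcongr
    linarith
  have h58 : (1 : ℝ) ≤ (N : ℝ) ^ (5 / 8 : ℝ) := Real.one_le_rpow hNR (by norm_num)
  have hn1 : ((x / p : ℕ) : ℝ) ≤ (x : ℝ) / p := Nat.cast_div_le
  have hn2 : (x : ℝ) / p - 1 ≤ ((x / p : ℕ) : ℝ) := by
    have h4 : x < (x / p + 1) * p := by
      rw [add_mul, one_mul]
      exact Nat.lt_div_mul_add hp0
    have h5 : (x : ℝ) < (((x / p : ℕ) : ℝ) + 1) * p := by exact_mod_cast h4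
    have h6 : (x : ℝ) / p < ((x / p : ℕ) : ℝ) + 1 := by
      rw [div_lt_iff₀ hpR]
      exact h5
    linarith
  obtain ⟨hlp1, hlp2⟩ := MeanQ_len x l p hp0
  refine ⟨by linarith, ?_, ?_⟩
  · calc x / p ≤ x := Nat.div_le_self _ _
      _ ≤ 8 * N := hx2
      _ ≤ N * N := Nat.mul_le_mul_right _ (by omega)
      _ = N ^ 2 := (sq N).symm
  · refine MeanQ_real ((x : ℝ) / p) _ _ ((l : ℝ) / p) L K hL8 hn1 hn2 ?_ hlp1 hlp2 ?_ ?_
    · linarith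
    · rw [div_right_comm]
      gcongr
    · calc (l : ℝ) / p ≤ 4 * x / L ^ 10 / p := by gcongr
        _ = 4 * ((x : ℝ) / p) / L ^ 10 := by ring

private theorem MeanQ_filter (s : Finset ℕ) (f : ℕ → ℝ) :
    ∑ k ∈ s.filter (fun k => k ≡ 0 [MOD 1]), f k = ∑ k ∈ s, f k := by
  rw [filter_true_of_mem]
  intro k _
  exact Nat.modEq_one

theorem mean_b (e1 : ℝ) (he1 : 0 < e1) (he2 : e1 ≤ 1 / 100) (K : ℕ) : ∃ N0 : ℕ, ∀ N : ℕ, N0 ≤ N → ∀ J x l : ℕ,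
    (zz (yN e1 N) J : ℝ) ≤ (N : ℝ) ^ (2221 / 10000 : ℝ) → N ≤ 8 * x → x ≤ 8 * N → (x : ℝ) / Real.log N ^ K ≤ l →
    (l : ℝ) ≤ 4 * x / Real.log N ^ 10 →
      |∑ m ∈ Ioc x (x + l), ∑ j ∈ range J, Fp (bf (yN e1 N) J) (2 ^ j * yN e1 N) m
        - l * ∑ j ∈ range J, WK (yN e1 N) J (2 ^ j * yN e1 N) x| ≤ 3 * l / Real.log N ^ 2 := by
  obtain ⟨N1, hN1⟩ := mean_f e1 he1 K
  obtain ⟨N2, hN2⟩ := MeanQ_all e1 he1 K
  obtain ⟨N3, hN3⟩ := eq_bg (1 / 2) e1 (2221 / 10000) he1 (by linarith) (by norm_num) 3 0 (K + 1)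
  refine ⟨N1 + N2 + N3, fun N hN J x l hz hx1 hx2 hl1 hl2 => ?_⟩
  obtain ⟨h2, hL, hy, hlx, hall⟩ := hN2 N (by omega) J x l hz hx1 hx2 hl1 hl2
  have hNR : (1 : ℝ) ≤ N := by exact_mod_cast (by omega : 1 ≤ N)
  have hL1 : 1 ≤ Real.log N := by linarith
  have key := hN1 N (by omega) J x l (bf (yN e1 N) J) (kap (yN e1 N) J)
    (hz.trans (Real.rpow_le_rpow_of_exponent_le hNR (by norm_num))) hx1 hx2 hl1 hlx ?_ ?_
  · simpa only [WK] using key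
  · intro p hp
    obtain ⟨a1, a2, a3, a4⟩ := hall p hp
    have h := hN3 N (by omega) J (x / p) ((x + l) / p - x / p) 1 0 hz
      ((Real.rpow_le_rpow_of_exponent_le hNR (by norm_num)).trans a1) a2 a3 ?_ le_rfl ?_
    · have hdiv : x / p ≤ (x + l) / p := Nat.div_le_div_right (Nat.le_add_right _ _)
      rw [MeanQ_filter, Nat.add_sub_cancel' hdiv, if_pos (Nat.coprime_one_right 0), Nat.totient_one,
        Nat.cast_one, div_one] at h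
      exact h
    · refine a4.trans ?_
      exact div_le_div_of_nonneg_left (Nat.cast_nonneg _) (by positivity)
        (pow_le_pow_right₀ hL1 (by norm_num))
    · rw [pow_zero, Nat.cast_one]
  · intro p hp
    obtain ⟨c1, c2⟩ := Pool.Agent.H91.TQ.kap_abs (yN e1 N) J (x / p) hy
    rw [abs_of_nonneg c1]
    refine c2.trans ?_
    nlinarith

theorem mean_q (e1 : ℝ) (he1 : 0 < e1) (he2 : e1 ≤ 1 / 100) (K : ℕ) : ∃ N0 : ℕ, ∀ N : ℕ, N0 ≤ N → ∀ J J1 x l : ℕ, J ≤ J1 →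
    (zz (yN e1 N) J : ℝ) ≤ (N : ℝ) ^ (2221 / 10000 : ℝ) → (zz (yN e1 N) J1 : ℝ) ≤ (N : ℝ) ^ (1527 / 5000 : ℝ) →
    N ≤ 8 * x → x ≤ 8 * N → (x : ℝ) / Real.log N ^ K ≤ l → (l : ℝ) ≤ 4 * x / Real.log N ^ 10 →
      |∑ m ∈ Ioc x (x + l), ∑ j ∈ range J, Fp (bq (yN e1 N) J J1) (2 ^ j * yN e1 N) m
        - l * ∑ j ∈ range J, WQ (yN e1 N) J J1 (2 ^ j * yN e1 N) x| ≤ 3 * l / Real.log N ^ 2 := by
  obtain ⟨N1, hN1⟩ := mean_f e1 he1 K
  obtain ⟨N2, hN2⟩ := MeanQ_all e1 he1 K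
  obtain ⟨N3, hN3⟩ := Pool.Agent.H91.TQ.eq_q e1 (2221 / 10000) (1527 / 5000) (5 / 8) he1 (by linarith) (by norm_num)
    (by norm_num) (by norm_num) 3 0 (K + 1)
  refine ⟨N1 + N2 + N3, fun N hN J J1 x l hJ hz hz1 hx1 hx2 hl1 hl2 => ?_⟩
  obtain ⟨h2, hL, hy, hlx, hall⟩ := hN2 N (by omega) J x l hz hx1 hx2 hl1 hl2
  have hNR : (1 : ℝ) ≤ N := by exact_mod_cast (by omega : 1 ≤ N)
  have hL1 : 1 ≤ Real.log N := by linarith
  have key := hN1 N (by omega) J x l (bq (yN e1 N) J J1) (Pool.Agent.H91.TQ.kq (yN e1 N) J J1)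
    (hz.trans (Real.rpow_le_rpow_of_exponent_le hNR (by norm_num))) hx1 hx2 hl1 hlx ?_ ?_
  · simpa only [WQ] using key
  · intro p hp
    obtain ⟨a1, a2, a3, a4⟩ := hall p hp
    have h := hN3 N (by omega) J J1 (x / p) ((x + l) / p - x / p) 1 0 hJ hz hz1
      a1 a2 a3 a4 le_rfl ?_
    · have hdiv : x / p ≤ (x + l) / p := Nat.div_le_div_right (Nat.le_add_right _ _)
      rw [MeanQ_filter, Nat.add_sub_cancel' hdiv, if_pos (Nat.coprime_one_right 0), Nat.totient_one,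
        Nat.cast_one, div_one] at h
      exact h
    · rw [pow_zero, Nat.cast_one]
  · intro p hp
    refine (Pool.Agent.H91.TQ.kq_abs (yN e1 N) J J1 (x / p) hy).trans ?_
    have h0 : (0 : ℝ) < (zz (yN e1 N) J1 : ℝ) := by
      unfold zz
      have : 0 < 2 ^ J1 * yN e1 N := by positivity
      exact_mod_cast this
    have h1 : Real.log (zz (yN e1 N) J1) ≤ Real.log N := by
      refine Real.log_le_log h0 (hz1.trans ?_)
      calc (N : ℝ) ^ (1527 / 5000 : ℝ) ≤ (N : ℝ) ^ (1 : ℝ) :=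
            Real.rpow_le_rpow_of_exponent_le hNR (by norm_num)
        _ = N := Real.rpow_one _
    nlinarith

end Pool.Agent.H9.TM
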