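import Pool.Agent.H76.TP.MertR

/-!
# TM LinM: sums over primes with linear weights

From `mert_r` (`H76/TP/MertR.lean`) with `f u = α + β u`: `∫_a^b (α + β u)/u du = α log(b/a) + β (b - a)`; `0 ≤ f ≤ 2M`, `f` is `M`-Lipschitz.
-/

set_option autoImplicit false

namespace Pool.Agent.H9.TM

open Finset MeasureTheory
open Pool.Agent.H76.TP

/-- the primes of `(N^s, N^t]` -/
noncomputable def PE (N : ℕ) (s t : ℝ) : Finset ℕ :=
  (Icc 1 N).filter (fun p : ℕ => p.Prime ∧ (N : ℝ) ^ s < p ∧ (p : ℝ) ≤ (N : ℝ) ^ t)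

theorem lin_m (a0 M ε : ℝ) (ha0 : 0 < a0) (hM : 0 < M) (hε : 0 < ε) : ∃ N0 : ℕ, ∀ N : ℕ, N0 ≤ N →
    ∀ a b α β : ℝ, a0 ≤ a → a ≤ b → b ≤ 1 → |α| ≤ M → |β| ≤ M → (∀ u ∈ Set.Icc a b, 0 ≤ α + β * u) →
      ∑ p ∈ PE N a b, (α + β * (Real.log p / Real.log N)) / p ≤ α * Real.log (b / a) + β * (b - a) + ε := by
  obtain ⟨N0, hN0⟩ := mert_r a0 (2 * M) ε ha0 (by linarith) hε
  refine ⟨N0, fun N hN a b α β ha hab hb hα hβ hpos => ?_⟩
  have ha1 : 0 < a := lt_of_lt_of_le ha0 ha
  have h := hN0 N hN a b (fun u => α + β * u) ha hab hb (fun u hu => ⟨hpos u hu, ?_⟩) (fun u hu v hv => ?_)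
  · refine h.trans (le_of_eq ?_)
    have h1 : ∫ u in a..b, (α + β * u) / u = ∫ u in a..b, (α * (1 / u) + β) := by
      refine intervalIntegral.integral_congr fun u hu => ?_
      rw [Set.uIcc_of_le hab] at hu
      have hu0 : u ≠ 0 := by
        have := hu.1
        intro h0
        linarith
      show (α + β * u) / u = α * (1 / u) + β
      field_simp
    rw [h1]
    have h0 : ∀ u ∈ Set.uIcc a b, u ≠ 0 := by
      intro u hu
      rw [Set.uIcc_of_le hab] at hu
      have := hu.1
      intro h0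
      linarith
    have hint : IntervalIntegrable (fun u : ℝ => α * (1 / u)) volume a b :=
      (intervalIntegral.intervalIntegrable_one_div h0 continuousOn_id).const_mul α
    rw [intervalIntegral.integral_add hint (by simp), intervalIntegral.integral_const_mul, intervalIntegral.integral_const,
      integral_one_div_of_pos ha1 (by linarith), smul_eq_mul]
    ring
  · have h1 := abs_le.1 hα
    have h2 := abs_le.1 hβ
    have hu0 : 0 ≤ u := by linarith [hu.1]
    have hu1 : u ≤ 1 := by linarith [hu.2]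
    have : β * u ≤ M * 1 := mul_le_mul h2.2 hu1 hu0 hM.le
    show α + β * u ≤ 2 * M
    linarith
  · show |(α + β * u) - (α + β * v)| ≤ 2 * M * |u - v|
    have : (α + β * u) - (α + β * v) = β * (u - v) := by ring
    rw [this, abs_mul]
    exact mul_le_mul_of_nonneg_right (by linarith) (abs_nonneg _)

end Pool.Agent.H9.TM
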