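import Pool.Agent.H91.TQ.Defs
import Pool.Agent.H76.GB.Defs
import Pool.Agent.H91.EHA.ChB

/-!
# TM MeanF: the mean of the type II sums over a long interval, abstract form

Compare the proof of `mass_q` in `H91/TQ/MassQ.lean` (private lemmas `MassQ_part`, `MassQ_swap`, `MassQ_len`, `MassQ_inv`: copy them; there only the upper bound is proved).  `y = yN e1 N`, `z = zz y J ≤ N^(1/4)`, `l_p = (x+l)/p - x/p` (natural division),
`|l_p - l/p| ≤ 1`.  `∑_m ∑_j Fp f P_j m = ∑_{p ∈ PY y z} ∑_{k ∈ (x/p, (x+l)/p]} f k = ∑_p (l_p D(x/p) + O(l_p/L^3))`, `l_p D(x/p) = (l/p) D(x/p) + O(L²)`, `∑_p l_p ≤ l (1 + L) + z`, at most `z ≤ N^(1/4)` primes.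
Total error `≤ (l (1 + L) + z)/L^3 + z L² ≤ 3 l/L²`.
-/

set_option autoImplicit false

namespace Pool.Agent.H9.TM

open Finset
open Pool.Agent.H35.W (pb)
open Pool.Agent.H53.MID (Fp)
open Pool.Agent.H76.TP

private theorem MeanF_le_zz (y J : ℕ) : y ≤ zz y J := by
  unfold zz
  exact Nat.le_mul_of_pos_left _ (by positivity)

/-- the primes of `(y, z]` are partitioned -/
private theorem MeanF_part (g : ℕ → ℝ) (y J : ℕ) :
    ∑ j ∈ range J, ∑ p ∈ pb (2 ^ j * y), g p = ∑ p ∈ PY y (zz y J), g p := by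
  induction J with
  | zero =>
    have h : PY y (zz y 0) = ∅ := by
      unfold PY zz
      rw [pow_zero, one_mul, Finset.Ioc_self, Finset.filter_empty]
    rw [h, Finset.range_zero, Finset.sum_empty, Finset.sum_empty]
  | succ J ih =>
    rw [Finset.sum_range_succ, ih]
    have h2 : zz y (J + 1) = 2 * zz y J := by
      unfold zz
      ring
    have hle := MeanF_le_zz y J
    have h3 : PY y (zz y (J + 1)) = PY y (zz y J) ∪ pb (2 ^ J * y) := by
      ext p
      unfold PY pb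
      simp only [Finset.mem_union, Finset.mem_filter, Finset.mem_Ioc]
      rw [h2]
      have h4 : zz y J = 2 ^ J * y := rfl
      rw [← h4]
      constructor
      · rintro ⟨⟨h5, h6⟩, h7⟩
        by_cases h8 : p ≤ zz y J
        · exact Or.inl ⟨⟨h5, h8⟩, h7⟩
        · exact Or.inr ⟨⟨by omega, h6⟩, h7⟩
      · rintro (⟨⟨h5, h6⟩, h7⟩ | ⟨⟨h5, h6⟩, h7⟩)
        · exact ⟨⟨h5, by omega⟩, h7⟩
        · exact ⟨⟨by omega, h6⟩, h7⟩
    have h4 : Disjoint (PY y (zz y J)) (pb (2 ^ J * y)) := by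
      rw [Finset.disjoint_left]
      intro p hp hq
      unfold PY at hp
      unfold pb at hq
      rw [Finset.mem_filter, Finset.mem_Ioc] at hp hq
      have h5 : zz y J = 2 ^ J * y := rfl
      omega
    rw [h3, Finset.sum_union h4]

/-- the multiples of `d` in an interval -/
private theorem MeanF_div (f : ℕ → ℝ) (x l d : ℕ) (hd : 1 ≤ d) :
    ∑ m ∈ (Ioc x (x + l)).filter (fun m => d ∣ m), f (m / d) = ∑ k ∈ Ioc (x / d) ((x + l) / d), f k := by
  refine Finset.sum_nbij' (fun m => m / d) (fun k => k * d) ?_ ?_ ?_ ?_ ?_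
  · intro m hm
    rw [mem_filter, mem_Ioc] at hm
    obtain ⟨⟨h1, h2⟩, k, rfl⟩ := hm
    rw [Nat.mul_div_cancel_left k (by omega), mem_Ioc]
    constructor
    · rw [Nat.div_lt_iff_lt_mul (by omega)]
      calc x < d * k := h1
        _ = k * d := mul_comm _ _
    · rw [Nat.le_div_iff_mul_le (by omega)]
      calc k * d = d * k := mul_comm _ _
        _ ≤ x + l := h2
  · intro k hk
    rw [mem_Ioc] at hk
    rw [mem_filter, mem_Ioc]
    refine ⟨⟨?_, ?_⟩, dvd_mul_left d k⟩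
    · exact (Nat.div_lt_iff_lt_mul (by omega)).1 hk.1
    · exact (Nat.le_div_iff_mul_le (by omega)).1 hk.2
  · intro m hm
    rw [mem_filter] at hm
    exact Nat.div_mul_cancel hm.2
  · intro k _
    exact Nat.mul_div_cancel k (by omega)
  · intro m _
    rfl

private theorem MeanF_len (x l d : ℕ) (hd : 1 ≤ d) :
    (((x + l) / d - x / d : ℕ) : ℝ) ≤ (l : ℝ) / d + 1 ∧ (l : ℝ) / d - 1 ≤ (((x + l) / d - x / d : ℕ) : ℝ) := by
  have h0 : x / d ≤ (x + l) / d := Nat.div_le_div_right (by omega)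
  have hd0 : (0 : ℝ) < d := by exact_mod_cast hd
  have e1 : (((x + l) / d : ℕ) : ℝ) ≤ ((x : ℝ) + l) / d := by
    have : (((x + l) / d : ℕ) : ℝ) ≤ ((x + l : ℕ) : ℝ) / d := Nat.cast_div_le
    push_cast at this
    exact this
  have e2 : ((x : ℝ) + l) / d - 1 ≤ (((x + l) / d : ℕ) : ℝ) := by
    have := Nat.lt_floor_add_one (((x + l : ℕ) : ℝ) / (d : ℝ))
    rw [Nat.floor_div_eq_div] at this
    push_cast at this
    linarith
  have e3 : ((x / d : ℕ) : ℝ) ≤ (x : ℝ) / d := Nat.cast_div_le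
  have e4 : (x : ℝ) / d - 1 ≤ ((x / d : ℕ) : ℝ) := by
    have := Nat.lt_floor_add_one ((x : ℝ) / (d : ℝ))
    rw [Nat.floor_div_eq_div] at this
    linarith
  have e5 : ((x : ℝ) + l) / d = (x : ℝ) / d + (l : ℝ) / d := add_div _ _ _
  constructor
  · rw [Nat.cast_sub h0]
    linarith
  · rw [Nat.cast_sub h0]
    linarith

/-- the sum of the type II parts over an interval -/
private theorem MeanF_swap (f : ℕ → ℝ) (y J x l : ℕ) :
    ∑ m ∈ Ioc x (x + l), ∑ j ∈ range J, Fp f (2 ^ j * y) m =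
      ∑ p ∈ PY y (zz y J), ∑ k ∈ Ioc (x / p) ((x + l) / p), f k := by
  have h1 : ∀ m, ∑ j ∈ range J, Fp f (2 ^ j * y) m =
      ∑ p ∈ PY y (zz y J), if p ∣ m then f (m / p) else 0 := by
    intro m
    rw [← MeanF_part (fun p => if p ∣ m then f (m / p) else 0) y J]
    refine sum_congr rfl fun j _ => ?_
    unfold Fp
    rw [sum_filter]
  simp_rw [h1]
  rw [sum_comm]
  refine sum_congr rfl fun p hp => ?_
  unfold PY at hp
  rw [mem_filter] at hp
  rw [← sum_filter]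
  exact MeanF_div f x l p hp.2.one_lt.le

private theorem MeanF_inv (y z : ℕ) (L : ℝ) (hzL : Real.log z ≤ L) :
    ∑ p ∈ PY y z, 1 / (p : ℝ) ≤ 1 + L := by
  have h1 : ∑ p ∈ PY y z, 1 / (p : ℝ) ≤ ∑ p ∈ Icc 1 z, 1 / (p : ℝ) := by
    apply sum_le_sum_of_subset_of_nonneg
    · intro p hp
      unfold PY at hp
      rw [mem_filter, mem_Ioc] at hp
      rw [mem_Icc]
      exact ⟨hp.2.one_lt.le, hp.1.2⟩
    · intro p _ _
      positivity
  have h2 := Pool.Agent.H91.EHA.chB_harm z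
  linarith

private theorem MeanF_card (y z : ℕ) : ((PY y z).card : ℝ) ≤ z := by
  have h : (PY y z).card ≤ z := by
    unfold PY
    refine (card_filter_le _ _).trans ?_
    rw [Nat.card_Ioc]
    exact Nat.sub_le z y
  exact_mod_cast h

theorem mean_f (e1 : ℝ) (he1 : 0 < e1) (K : ℕ) : ∃ N0 : ℕ, ∀ N : ℕ, N0 ≤ N → ∀ (J x l : ℕ) (f D : ℕ → ℝ),
    (zz (yN e1 N) J : ℝ) ≤ (N : ℝ) ^ (1 / 4 : ℝ) → N ≤ 8 * x → x ≤ 8 * N → (x : ℝ) / Real.log N ^ K ≤ l → l ≤ x →
    (∀ p ∈ PY (yN e1 N) (zz (yN e1 N) J), |∑ k ∈ Ioc (x / p) ((x + l) / p), f k - (((x + l) / p - x / p : ℕ) : ℝ) * D (x / p)| ≤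
      (((x + l) / p - x / p : ℕ) : ℝ) / Real.log N ^ 3) →
    (∀ p ∈ PY (yN e1 N) (zz (yN e1 N) J), |D (x / p)| ≤ Real.log N ^ 2) →
      |∑ m ∈ Ioc x (x + l), ∑ j ∈ range J, Fp f (2 ^ j * yN e1 N) m
        - l * ∑ j ∈ range J, ∑ p ∈ pb (2 ^ j * yN e1 N), D (x / p) / p| ≤ 3 * l / Real.log N ^ 2 := by
  obtain ⟨x1, hx1⟩ := Pool.Agent.H76.GB.log_ge 10
  obtain ⟨x2, hx2⟩ := Pool.Agent.H76.GB.log_pow_le (3 / 4) 16 (by norm_num) (by norm_num) (K + 4)
  refine ⟨x1 + x2 + 100, fun N hN J x l f D hz hNx hxN hl hlx hf hD => ?_⟩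
  have g1 := hx1 N (by omega)
  have g2 := hx2 N (by omega)
  set L := Real.log N with hL
  set y := yN e1 N with hy
  set z := zz y J with hzd
  have hL0 : 0 < L := by linarith
  have hL1 : 1 ≤ L := by linarith
  have hNpos : (0 : ℝ) < N := by
    have : 0 < N := by omega
    exact_mod_cast this
  have hN1r : (1 : ℝ) ≤ N := by
    have : 1 ≤ N := by omega
    exact_mod_cast this
  have hy1 : 1 ≤ y := by
    rw [hy]
    unfold yN
    exact Nat.le_floor (by
      rw [Nat.cast_one]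
      exact Real.one_le_rpow hN1r he1.le)
  have hz1 : 1 ≤ z := hy1.trans (MeanF_le_zz y J)
  have hz0 : (0 : ℝ) < z := by exact_mod_cast hz1
  have hN14 : (N : ℝ) ^ (1 / 4 : ℝ) ≤ N := by
    calc (N : ℝ) ^ (1 / 4 : ℝ) ≤ (N : ℝ) ^ (1 : ℝ) :=
          Real.rpow_le_rpow_of_exponent_le hN1r (by norm_num)
      _ = N := Real.rpow_one _
  have hzL : Real.log z ≤ L := Real.log_le_log hz0 (hz.trans hN14)
  have hL2 : (0 : ℝ) < L ^ 2 := by positivity
  have hL3 : (0 : ℝ) < L ^ 3 := by positivity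
  have hLK : (0 : ℝ) < L ^ K := by positivity
  have hxr : (N : ℝ) ≤ 8 * x := by exact_mod_cast hNx
  -- `2 z L^4 ≤ l`
  have hzl : 2 * z * L ^ 4 ≤ l := by
    refine le_trans ?_ hl
    rw [le_div_iff₀ hLK]
    have h1 : 16 * L ^ (K + 4) * z ≤ N := by
      calc 16 * L ^ (K + 4) * z ≤ (N : ℝ) ^ (3 / 4 : ℝ) * (N : ℝ) ^ (1 / 4 : ℝ) :=
            mul_le_mul g2 hz hz0.le (by positivity)
        _ = (N : ℝ) := by
            rw [← Real.rpow_add hNpos]
            have : (3 / 4 : ℝ) + 1 / 4 = 1 := by norm_num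
            rw [this, Real.rpow_one]
    have h2 : 16 * L ^ (K + 4) * z = 8 * (2 * z * L ^ 4 * L ^ K) := by
      rw [pow_add]
      ring
    linarith
  -- the terms
  have hterm : ∀ p ∈ PY y z, |∑ k ∈ Ioc (x / p) ((x + l) / p), f k - l * (D (x / p) / p)| ≤
      l / L ^ 3 * (1 / p) + (1 / L ^ 3 + L ^ 2) := by
    intro p hp
    have hf1 := hf p hp
    have hD1 := hD p hp
    unfold PY at hp
    rw [mem_filter, mem_Ioc] at hp
    have hp1 : 1 ≤ p := hp.2.one_lt.le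
    have hp0 : (0 : ℝ) < p := by exact_mod_cast hp1
    obtain ⟨a2, a3⟩ := MeanF_len x l p hp1
    set lp : ℝ := (((x + l) / p - x / p : ℕ) : ℝ) with hlp
    have hd : |lp - l / p| ≤ 1 := by
      rw [abs_le]
      constructor
      · linarith
      · linarith
    have e1 : ∑ k ∈ Ioc (x / p) ((x + l) / p), f k - l * (D (x / p) / p) =
        (∑ k ∈ Ioc (x / p) ((x + l) / p), f k - lp * D (x / p)) + (lp - l / p) * D (x / p) := by
      ring
    have e2 : |(lp - l / p) * D (x / p)| ≤ L ^ 2 := by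
      rw [abs_mul]
      calc |lp - l / p| * |D (x / p)| ≤ 1 * L ^ 2 := mul_le_mul hd hD1 (abs_nonneg _) zero_le_one
        _ = L ^ 2 := one_mul _
    have e3 : lp / L ^ 3 ≤ l / L ^ 3 * (1 / p) + 1 / L ^ 3 := by
      calc lp / L ^ 3 ≤ (l / p + 1) / L ^ 3 := div_le_div_of_nonneg_right a2 hL3.le
        _ = l / L ^ 3 * (1 / p) + 1 / L ^ 3 := by
            field_simp
    rw [e1]
    calc |(∑ k ∈ Ioc (x / p) ((x + l) / p), f k - lp * D (x / p)) + (lp - l / p) * D (x / p)|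
        ≤ |∑ k ∈ Ioc (x / p) ((x + l) / p), f k - lp * D (x / p)| + |(lp - l / p) * D (x / p)| := abs_add_le _ _
      _ ≤ lp / L ^ 3 + L ^ 2 := add_le_add hf1 e2
      _ ≤ l / L ^ 3 * (1 / p) + (1 / L ^ 3 + L ^ 2) := by linarith
  rw [MeanF_swap, MeanF_part (fun p => D (x / p) / p) y J, mul_sum, ← sum_sub_distrib]
  have hinv := MeanF_inv y z L hzL
  have hcard := MeanF_card y z
  have hl0 : (0 : ℝ) ≤ l := Nat.cast_nonneg l
  calc |∑ p ∈ PY y z, (∑ k ∈ Ioc (x / p) ((x + l) / p), f k - l * (D (x / p) / p))|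
      ≤ ∑ p ∈ PY y z, |∑ k ∈ Ioc (x / p) ((x + l) / p), f k - l * (D (x / p) / p)| := abs_sum_le_sum_abs _ _
    _ ≤ ∑ p ∈ PY y z, (l / L ^ 3 * (1 / p) + (1 / L ^ 3 + L ^ 2)) := sum_le_sum hterm
    _ = l / L ^ 3 * ∑ p ∈ PY y z, 1 / (p : ℝ) + ((PY y z).card : ℝ) * (1 / L ^ 3 + L ^ 2) := by
        rw [sum_add_distrib, ← mul_sum, sum_const, nsmul_eq_mul]
    _ ≤ l / L ^ 3 * (1 + L) + z * (1 / L ^ 3 + L ^ 2) := by
        apply add_le_add
        · exact mul_le_mul_of_nonneg_left hinv (by positivity)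
        · exact mul_le_mul_of_nonneg_right hcard (by positivity)
    _ ≤ 3 * l / L ^ 2 := by
        have h1 : (l : ℝ) / L ^ 3 * (1 + L) ≤ 2 * l / L ^ 2 := by
          have h2 : (l : ℝ) / L ^ 3 * (1 + L) = (l / L ^ 2) * ((1 + L) / L) := by
            field_simp
          have h3 : (1 + L) / L ≤ 2 := by
            rw [div_le_iff₀ hL0]
            linarith
          calc (l : ℝ) / L ^ 3 * (1 + L) = (l / L ^ 2) * ((1 + L) / L) := h2
            _ ≤ (l / L ^ 2) * 2 := mul_le_mul_of_nonneg_left h3 (by positivity)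
            _ = 2 * l / L ^ 2 := by ring
        have h4 : z * (1 / L ^ 3 + L ^ 2) ≤ l / L ^ 2 := by
          rw [le_div_iff₀ hL2]
          have h5 : 1 / L ^ 3 ≤ L ^ 2 := by
            rw [div_le_iff₀ hL3]
            have h6 : (1 : ℝ) ≤ L ^ 2 := one_le_pow₀ hL1
            have h7 : (1 : ℝ) ≤ L ^ 3 := one_le_pow₀ hL1
            calc (1 : ℝ) = 1 * 1 := by norm_num
              _ ≤ L ^ 2 * L ^ 3 := mul_le_mul h6 h7 zero_le_one (by positivity)
          calc z * (1 / L ^ 3 + L ^ 2) * L ^ 2 ≤ z * (L ^ 2 + L ^ 2) * L ^ 2 := by gcongr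
            _ = 2 * z * L ^ 4 := by ring
            _ ≤ l := hzl
        have h8 : 3 * (l : ℝ) / L ^ 2 = 2 * l / L ^ 2 + l / L ^ 2 := by ring
        rw [h8]
        exact add_le_add h1 h4

end Pool.Agent.H9.TM
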