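import Pool.Agent.H46.TPQ.Defs

/-!
# TM Poly: the polynomial inequality behind the mass condition

`a_k` = the normalized numbers of composite rough numbers with `k` small primes, `A = 1 + ∑ a_k`, `W = ∑ k a_k`, `E = a2 + 2 a3 + 3 a4`, `G = (3/4) a2 + (4/3) a3 + (15/8) a4`:
`MM(1, E, G, A, W, 0) = 1 - a0² - 2E - 2 a1 (a2/4 + 2 a3/3 + 9 a4/8) - a2 a3/6 - a2 a4/2 - a3 a4/12`.
-/

set_option autoImplicit false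

namespace Pool.Agent.H9.TM

open Pool.Agent.H46.TPQ (MM)

theorem poly_id (a0 a1 a2 a3 a4 : ℝ) :
    MM 1 (a2 + 2 * a3 + 3 * a4) (3 / 4 * a2 + 4 / 3 * a3 + 15 / 8 * a4) (1 + a0 + a1 + a2 + a3 + a4) (a1 + 2 * a2 + 3 * a3 + 4 * a4) 0 =
      1 - a0 ^ 2 - 2 * (a2 + 2 * a3 + 3 * a4) - 2 * a1 * (a2 / 4 + 2 * a3 / 3 + 9 * a4 / 8) - a2 * a3 / 6 - a2 * a4 / 2
        - a3 * a4 / 12 := by
  unfold MM
  ring

theorem poly_lb (a0 a1 a2 a3 a4 : ℝ) (h0 : 0 ≤ a0) (h1 : 0 ≤ a1) (h2 : 0 ≤ a2) (h3 : 0 ≤ a3) (h4 : 0 ≤ a4)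
    (b0 : a0 ≤ 8388 / 10000) (b1 : a1 ≤ 5885 / 10000) (b2 : a2 ≤ 1103 / 10000) (b3 : a3 + a4 ≤ 41 / 10000) :
    128 / 10000 ≤ MM 1 (a2 + 2 * a3 + 3 * a4) (3 / 4 * a2 + 4 / 3 * a3 + 15 / 8 * a4) (1 + a0 + a1 + a2 + a3 + a4)
      (a1 + 2 * a2 + 3 * a3 + 4 * a4) 0 := by
  rw [poly_id]
  have e0 : a0 ^ 2 ≤ (8388 / 10000) ^ 2 := pow_le_pow_left₀ h0 b0 2
  have e1 : a2 + 2 * a3 + 3 * a4 ≤ 1103 / 10000 + 3 * (41 / 10000) := by linarith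
  have e2 : a2 / 4 + 2 * a3 / 3 + 9 * a4 / 8 ≤ 1103 / 10000 / 4 + 9 / 8 * (41 / 10000) := by linarith
  have e3 : a1 * (a2 / 4 + 2 * a3 / 3 + 9 * a4 / 8) ≤ 5885 / 10000 * (1103 / 10000 / 4 + 9 / 8 * (41 / 10000)) :=
    mul_le_mul b1 e2 (by positivity) (by norm_num)
  have e4 : a2 * (a3 / 6 + a4 / 2) ≤ 1103 / 10000 * (41 / 10000 / 2) :=
    mul_le_mul b2 (by linarith) (by positivity) (by norm_num)
  have e5 : a3 * a4 ≤ 41 / 10000 * (41 / 10000) := mul_le_mul (by linarith) (by linarith) h4 (by norm_num)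
  nlinarith

/-- perturbation -/
theorem poly_pert (a0 a1 a2 a3 a4 gp α ω κ : ℝ) (h0 : 0 ≤ a0) (h1 : 0 ≤ a1) (h2 : 0 ≤ a2) (h3 : 0 ≤ a3) (h4 : 0 ≤ a4)
    (b0 : a0 ≤ 8388 / 10000) (b1 : a1 ≤ 5885 / 10000) (b2 : a2 ≤ 1103 / 10000) (b3 : a3 + a4 ≤ 41 / 10000)
    (hgp : |gp - 1| ≤ 1 / 10 ^ 4) (hα : |α - (1 + a0 + a1 + a2 + a3 + a4)| ≤ 2 / 10 ^ 5)
    (hω : |ω - (a1 + 2 * a2 + 3 * a3 + 4 * a4)| ≤ 2 / 10 ^ 5) (hκ0 : 0 ≤ κ) (hκ : κ ≤ 1 / 10 ^ 6) :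
    1 / 100 ≤ MM gp (a2 + 2 * a3 + 3 * a4) (3 / 4 * a2 + 4 / 3 * a3 + 15 / 8 * a4) α ω κ := by
  have hlb := poly_lb a0 a1 a2 a3 a4 h0 h1 h2 h3 h4 b0 b1 b2 b3
  obtain ⟨A, hA⟩ : ∃ A, A = 1 + a0 + a1 + a2 + a3 + a4 := ⟨_, rfl⟩
  obtain ⟨W, hW⟩ : ∃ W, W = a1 + 2 * a2 + 3 * a3 + 4 * a4 := ⟨_, rfl⟩
  obtain ⟨E, hE⟩ : ∃ E, E = a2 + 2 * a3 + 3 * a4 := ⟨_, rfl⟩
  obtain ⟨G, hG⟩ : ∃ G, G = 3 / 4 * a2 + 4 / 3 * a3 + 15 / 8 * a4 := ⟨_, rfl⟩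
  rw [← hA, ← hW, ← hE, ← hG] at hlb
  rw [← hA] at hα
  rw [← hW] at hω
  rw [← hE, ← hG]
  obtain ⟨p, hp⟩ : ∃ p, p = gp - 1 := ⟨_, rfl⟩
  obtain ⟨s, hs⟩ : ∃ s, s = α - A := ⟨_, rfl⟩
  obtain ⟨t, ht⟩ : ∃ t, t = ω - W := ⟨_, rfl⟩
  rw [← hp] at hgp
  rw [← hs] at hα
  rw [← ht] at hω
  have e1 : gp = 1 + p := by linarith
  have e2 : α = A + s := by linarith
  have e3 : ω = W + t := by linarith
  have hA1 : 0 ≤ A ∧ A ≤ 26 / 10 := by constructor <;> linarith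
  have hW1 : 0 ≤ W ∧ W ≤ 1 := by constructor <;> linarith
  have hE1 : 0 ≤ E ∧ E ≤ 1 / 2 := by constructor <;> linarith
  have hG1 : 0 ≤ G ∧ G ≤ 1 / 2 := by constructor <;> linarith
  have hf1 : |A - W| ≤ 2 := by
    rw [abs_le]
    constructor <;> linarith
  have hdiff : MM gp E G α ω κ - MM 1 E G A W 0 =
      2 * p * ((A - W) + (s - t)) + 2 * (s - t) - 2 * (A - W) * (s - t) - (s - t) ^ 2 - 2 * E * s + 2 * G * t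
        - 60 * (A + s) * κ - 30 * κ ^ 2 := by
    rw [e1, e2, e3]
    unfold MM
    ring
  have hst : |s - t| ≤ 4 / 10 ^ 5 := by
    rw [abs_le] at hα hω ⊢
    constructor <;> linarith
  have c1 : |2 * p * ((A - W) + (s - t))| ≤ 2 * (1 / 10 ^ 4) * 3 := by
    rw [abs_mul, abs_mul]
    have k1 : |(A - W) + (s - t)| ≤ 3 := (abs_add_le _ _).trans (by linarith)
    have k2 : |(2 : ℝ)| = 2 := abs_of_pos (by norm_num)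
    rw [k2]
    exact mul_le_mul (mul_le_mul_of_nonneg_left hgp (by norm_num)) k1 (abs_nonneg _) (by norm_num)
  have c2 : |2 * (A - W) * (s - t)| ≤ 2 * 2 * (4 / 10 ^ 5) := by
    rw [abs_mul, abs_mul]
    have k2 : |(2 : ℝ)| = 2 := abs_of_pos (by norm_num)
    rw [k2]
    exact mul_le_mul (mul_le_mul_of_nonneg_left hf1 (by norm_num)) hst (abs_nonneg _) (by norm_num)
  have c3 : (s - t) ^ 2 ≤ (4 / 10 ^ 5) ^ 2 := by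
    rw [← sq_abs]
    exact pow_le_pow_left₀ (abs_nonneg _) hst 2
  have c4 : |2 * E * s| ≤ 2 * (1 / 2) * (2 / 10 ^ 5) := by
    rw [abs_mul, abs_mul]
    have k2 : |(2 : ℝ)| = 2 := abs_of_pos (by norm_num)
    rw [k2, abs_of_nonneg hE1.1]
    exact mul_le_mul (mul_le_mul_of_nonneg_left hE1.2 (by norm_num)) hα (abs_nonneg _) (by norm_num)
  have c5 : |2 * G * t| ≤ 2 * (1 / 2) * (2 / 10 ^ 5) := by
    rw [abs_mul, abs_mul]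
    have k2 : |(2 : ℝ)| = 2 := abs_of_pos (by norm_num)
    rw [k2, abs_of_nonneg hG1.1]
    exact mul_le_mul (mul_le_mul_of_nonneg_left hG1.2 (by norm_num)) hω (abs_nonneg _) (by norm_num)
  have c6 : 60 * (A + s) * κ ≤ 60 * 3 * (1 / 10 ^ 6) := by
    have k1 : A + s ≤ 3 := by
      have := (abs_le.1 hα).2
      linarith
    have k3 : 60 * (A + s) * κ ≤ 60 * 3 * κ := by
      apply mul_le_mul_of_nonneg_right _ hκ0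
      linarith
    linarith
  have c7 : κ ^ 2 ≤ (1 / 10 ^ 6) ^ 2 := pow_le_pow_left₀ hκ0 hκ 2
  rw [abs_le] at c1 c2 c4 c5 hst
  norm_num at c1 c2 c3 c4 c5 c6 c7 hst ⊢
  linarith [c1.1, c2.2, c4.2, c5.1, hst.1, hst.2]

end Pool.Agent.H9.TM
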